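import Mathlib
import Pool.Agent.Helper68.CO2.Count
import Pool.Agent.Helper87.PA.Half2

/-!
# At most `3 sqrt n` failing columns for odd prime powers `n` (exact window)
-/

set_option autoImplicit false

open Finset

namespace Pool.Agent.Helper87.PA2

open Pool.Agent.Helper68.CO2

variable {A : Type*} [CommGroup A]

/-- modulo an odd `n`: if `2` is not in the stabilizer of `f`, then `-1` is not either and the
stabilizer has at most `3 sqrt n` elements -/
theorem stab_card {n : ℕ} [hn : Fact (1 < n)] (hodd : Odd n) {f : ℕ → A} (hf : CM f)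
    (h2 : U n 2 ∉ HH n f hf) :
    (Nat.card (HH n f hf) : ℝ) ≤ 3 * Real.sqrt n ∧ (-1 : (ZMod n)ˣ) ∉ HH n f hf := by
  classical
  have : NeZero n := ⟨by have := hn.out; omega⟩
  have hc2 : Nat.Coprime 2 n := Nat.coprime_two_left.2 hodd
  have hn1 := hn.out
  have hn3 : 2 < n := by
    rcases hodd with ⟨m, hm⟩
    omega
  rw [mem_HH, FF_U f hc2 hn3] at h2
  push Not at h2
  obtain ⟨x, hx⟩ := h2
  have hupper : ∀ v : (ZMod n)ˣ, FF n f (U n 2 * v) ≠ f 2 * FF n f v →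
      n < 2 * (v : ZMod n).val := by
    intro v hv
    by_contra hle
    push Not at hle
    apply hv
    apply FF_small hf (by norm_num) hc2
    rcases Nat.lt_or_ge (2 * (v : ZMod n).val) n with h | h
    · exact h
    · exfalso
      have h3 : 2 * (v : ZMod n).val = n := le_antisymm hle h
      rcases hodd with ⟨m, hm⟩
      omega
  have hclosed : ∀ h ∈ HH n f hf, FF n f (U n 2 * (x * h)) ≠ f 2 * FF n f (x * h) := by
    intro h hh he
    apply hx
    rw [mul_comm x h] at he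
    exact transport hf hh he
  refine ⟨?_, ?_⟩
  · have h3 := half_bound (n := n) hodd (univ.filter (fun h => h ∈ HH n f hf))
      (by
        intro t ht u hu
        rw [mem_filter] at ht hu ⊢
        exact ⟨mem_univ _, (HH n f hf).mul_mem ht.2 hu.2⟩)
      x
      (by
        intro t ht
        rw [mem_filter] at ht
        have := hupper _ (hclosed t ht.2)
        rw [Units.val_mul] at this
        exact this)
    have h4 : Nat.card (HH n f hf) = (univ.filter (fun h => h ∈ HH n f hf)).card := by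
      rw [Nat.card_eq_fintype_card, Fintype.card_subtype]
    rw [h4]
    exact h3
  · intro hneg
    have a1 := hupper x hx
    have a2 := hupper _ (hclosed _ hneg)
    rw [mul_neg, mul_one, Units.val_neg] at a2
    have : NeZero (x : ZMod n) := ⟨x.ne_zero⟩
    rw [ZMod.val_neg_of_ne_zero] at a2
    have := val_lt x
    omega

theorem ratio_mem {n : ℕ} [hn : Fact (1 < n)] {f : ℕ → A} (hf : CM f) {s₁ s₂ : A}
    (k₁ k₂ : (ZMod n)ˣ)
    (hc₁ : ∀ m : ℕ, 0 < m → m ≤ n ^ 2 → (m : ZMod n) = k₁ → f m = s₁)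
    (hc₂ : ∀ m : ℕ, 0 < m → m ≤ n ^ 2 → (m : ZMod n) = k₂ → f m = s₂) :
    k₂ * k₁⁻¹ ∈ HH n f hf := by
  have key : ∀ u : (ZMod n)ˣ, FF n f (k₂ * k₁⁻¹ * u) = (s₂ * s₁⁻¹) * FF n f u := by
    intro u
    have h1 := pair_value hf le_rfl k₁ hc₁ u
    have h2 := pair_value hf le_rfl k₂ hc₂ (k₁ * u⁻¹)
    have h3 : k₂ * (k₁ * u⁻¹)⁻¹ = k₂ * k₁⁻¹ * u := by
      rw [mul_inv, inv_inv, ← mul_assoc]
    rw [h3] at h2
    have h4 : FF n f (k₁ * u⁻¹) = s₁ * (FF n f u)⁻¹ := by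
      rw [← h1, mul_inv_cancel_right]
    rw [h4, mul_comm s₁] at h2
    rw [← h2]
    group
  rw [mem_HH]
  intro u
  have h1 := key 1
  rw [mul_one, FF_one hf, mul_one] at h1
  rw [key u, h1]

/-- the odd involution-free case -/
theorem neg_one_of_two {p e : ℕ} (hp : p.Prime) (h2 : p ≠ 2) [hn : Fact (1 < p ^ (e + 1))]
    (hg : U (p ^ (e + 1)) 2 ∈ HH (p ^ (e + 1)) lam cm_lam) :
    (-1 : (ZMod (p ^ (e + 1)))ˣ) ∈ HH (p ^ (e + 1)) lam cm_lam := by
  have : NeZero (p ^ (e + 1)) := ⟨by have := hn.out; omega⟩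
  have hodd : Odd (p ^ (e + 1)) := (hp.odd_of_ne_two h2).pow
  have hc2 : Nat.Coprime 2 (p ^ (e + 1)) := Nat.coprime_two_left.2 hodd
  have hn3 : 2 < p ^ (e + 1) := by
    have := hn.out
    rcases hodd with ⟨m, hm⟩
    omega
  obtain ⟨g, hgdef⟩ : ∃ g, g = U (p ^ (e + 1)) 2 := ⟨_, rfl⟩
  rw [← hgdef] at hg
  have hFg : FF (p ^ (e + 1)) lam g = -1 := by
    rw [hgdef, FF_U lam hc2 hn3, lam_prime Nat.prime_two]
  obtain ⟨m, hm⟩ : ∃ m, m = orderOf g := ⟨_, rfl⟩
  have hmpos : 0 < m := by rw [hm]; exact orderOf_pos _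
  have h1 : g ^ m = 1 := by rw [hm]; exact pow_orderOf_eq_one _
  have h3 := FF_pow cm_lam hg m
  rw [h1, FF_one cm_lam, hFg] at h3
  have heven : Even m := by
    by_contra ho
    rw [Nat.not_even_iff_odd] at ho
    rw [ho.neg_one_pow] at h3
    exact absurd h3 (by decide)
  obtain ⟨l, hl⟩ := heven
  have h4 : g ^ l * g ^ l = 1 := by rw [← pow_add, ← hl, h1]
  have h5 : g ^ l ≠ 1 := by
    intro h6
    have h7 : orderOf g ≤ l := orderOf_le_of_pow_eq_one (by omega) h6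
    omega
  rcases sq_one_pp hp h2 _ h4 with h6 | h6
  · exact absurd h6 h5
  · rw [← h6]
    exact (HH _ lam cm_lam).pow_mem hg l

/-- `2` is not in the stabilizer of the Liouville sign -/
theorem two_not_mem {p e : ℕ} (hp : p.Prime) (h2 : p ≠ 2) (h : e ≠ 0 ∨ 7 ≤ p)
    [hn : Fact (1 < p ^ (e + 1))] :
    U (p ^ (e + 1)) 2 ∉ HH (p ^ (e + 1)) lam cm_lam := by
  intro hg
  have hneg := neg_one_of_two hp h2 hg
  apply bad_pp hp h2 h
  apply good_of_reflection cm_lam p (Nat.le_self_pow (Nat.succ_ne_zero e) p)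
    (fun d h0 h1 => coprime_pp hp h0 h1) (FF (p ^ (e + 1)) lam (-1))
  intro u
  have := mem_HH.1 hneg u
  rwa [neg_one_mul] at this

theorem odd_card_of {p e : ℕ} (hp : p.Prime) (h2 : p ≠ 2) [hn : Fact (1 < p ^ (e + 1))]
    (H : Subgroup (ZMod (p ^ (e + 1)))ˣ) (hH : (-1 : (ZMod (p ^ (e + 1)))ˣ) ∉ H) :
    Odd (Nat.card H) := by
  have : NeZero (p ^ (e + 1)) := ⟨by have := hn.out; omega⟩
  by_contra hodd
  rw [Nat.not_odd_iff_even] at hodd
  have : Fact (Nat.Prime 2) := ⟨Nat.prime_two⟩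
  obtain ⟨g, hg⟩ := exists_prime_orderOf_dvd_card' (G := H) 2 hodd.two_dvd
  have h3 : (g : (ZMod (p ^ (e + 1)))ˣ) * g = 1 := by
    have h4 : g ^ 2 = 1 := by rw [← hg]; exact pow_orderOf_eq_one g
    have h5 : ((g ^ 2 : H) : (ZMod (p ^ (e + 1)))ˣ) = 1 := by rw [h4]; rfl
    rwa [Subgroup.coe_pow, pow_two] at h5
  have hg1 : g ≠ 1 := by
    intro h
    rw [h, orderOf_one] at hg
    norm_num at hg
  rcases sq_one_pp hp h2 _ h3 with h6 | h6
  · exact hg1 (Subtype.ext h6)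
  · apply hH
    rw [← h6]
    exact g.2

/-- odd prime powers: the failing columns of the exact window -/
theorem fail_pp {p e : ℕ} (hp : p.Prime) (h2 : p ≠ 2) :
    ∃ D : ℕ, Odd D ∧ D ∣ p ^ e * (p - 1) ∧ (D : ℝ) ≤ 3 * Real.sqrt ((p ^ (e + 1) : ℕ) : ℝ) ∧
      {k : ℕ | 1 ≤ k ∧ k < p ^ (e + 1) ∧ ¬ p ∣ k ∧
        ¬ Mixed (p ^ (e + 1)) k (p ^ (e + 1))}.ncard ≤ D := by
  classical
  have h1n := one_lt_pp (e := e) hp
  have hFact : Fact (1 < p ^ (e + 1)) := ⟨h1n⟩
  have : NeZero (p ^ (e + 1)) := ⟨by omega⟩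
  have hodd : Odd (p ^ (e + 1)) := (hp.odd_of_ne_two h2).pow
  by_cases hE : e ≠ 0 ∨ 7 ≤ p
  · have hnot := two_not_mem hp h2 hE
    obtain ⟨c1, c2⟩ := stab_card hodd cm_lam hnot
    refine ⟨Nat.card (HH (p ^ (e + 1)) lam cm_lam), odd_card_of hp h2 _ c2, ?_, c1, ?_⟩
    · have h3 := Subgroup.card_subgroup_dvd_card (HH (p ^ (e + 1)) lam cm_lam)
      rwa [Nat.card_eq_fintype_card (α := (ZMod (p ^ (e + 1)))ˣ), ZMod.card_units_eq_totient,
        Nat.totient_prime_pow hp (Nat.succ_pos e), Nat.succ_sub_one] at h3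
    · have hcop : ∀ k, ¬ p ∣ k → Nat.Coprime k (p ^ (e + 1)) := fun k hpk =>
        Nat.Coprime.pow_right _ ((Nat.Prime.coprime_iff_not_dvd hp).2 hpk).symm
      obtain ⟨S, hS⟩ : ∃ S : Set ℕ, S = {k : ℕ | 1 ≤ k ∧ k < p ^ (e + 1) ∧ ¬ p ∣ k ∧
          ¬ Mixed (p ^ (e + 1)) k (p ^ (e + 1))} := ⟨_, rfl⟩
      rw [← hS]
      have hmem : ∀ k ∈ S, 1 ≤ k ∧ k < p ^ (e + 1) ∧ ¬ p ∣ k ∧
          ¬ Mixed (p ^ (e + 1)) k (p ^ (e + 1)) := by
        intro k hk
        rw [hS] at hk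
        exact hk
      rcases S.eq_empty_or_nonempty with h | ⟨k₀, hk₀⟩
      · rw [h, Set.ncard_empty]
        exact Nat.zero_le _
      · obtain ⟨a1, a2, a3, a4⟩ := hmem k₀ hk₀
        obtain ⟨s₀, hs₀⟩ := const_of_not_mixed a4
        have hQ : Nat.card (HH (p ^ (e + 1)) lam cm_lam) =
            ((HH (p ^ (e + 1)) lam cm_lam : Set (ZMod (p ^ (e + 1)))ˣ)).ncard := by
          rw [← Nat.card_coe_set_eq]
          rfl
        rw [hQ]
        refine Set.ncard_le_ncard_of_injOn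
          (fun k => U (p ^ (e + 1)) k * (U (p ^ (e + 1)) k₀)⁻¹) ?_ ?_ (Set.toFinite _)
        · intro k hk
          obtain ⟨b1, b2, b3, b4⟩ := hmem k hk
          obtain ⟨s, hs⟩ := const_of_not_mixed b4
          exact ratio_mem cm_lam _ _ (const_class' a1 a2 (hcop _ a3) hs₀)
            (const_class' b1 b2 (hcop _ b3) hs)
        · intro k hk l hl hkl
          obtain ⟨b1, b2, b3, _⟩ := hmem k hk
          obtain ⟨c1, c2, c3, _⟩ := hmem l hl
          have h5 : U (p ^ (e + 1)) k = U (p ^ (e + 1)) l := mul_right_cancel hkl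
          have h6 : (k : ZMod (p ^ (e + 1))) = (l : ZMod (p ^ (e + 1))) := by
            rw [← coe_U (hcop k b3), ← coe_U (hcop l c3), h5]
          have h7 := (ZMod.natCast_eq_natCast_iff' k l (p ^ (e + 1))).1 h6
          rwa [Nat.mod_eq_of_lt b2, Nat.mod_eq_of_lt c2] at h7
  · push Not at hE
    obtain ⟨he, hp7⟩ := hE
    refine ⟨1, odd_one, one_dvd _, ?_, ?_⟩
    · have h3 : (1 : ℝ) ≤ Real.sqrt ((p ^ (e + 1) : ℕ) : ℝ) := by
        rw [Real.one_le_sqrt]
        exact_mod_cast h1n.le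
      push_cast at h3 ⊢
      linarith
    · rcases odd_prime_cases hp h2 with rfl | rfl | h7
      · exact card_fail (v := 1) (o := 1) (by norm_num) (by norm_num) (by rw [he]; norm_num)
      · exact card_fail (v := 2) (o := 1) (by norm_num) (by norm_num) (by rw [he]; norm_num)
      · omega

end Pool.Agent.Helper87.PA2
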