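import Mathlib
import Pool.Agent.Helper87.PA.ColsPP

/-!
# Failing columns for odd prime powers: the number is at most an odd divisor of `p - 1`
-/

set_option autoImplicit false

open Finset

namespace Pool.Agent.Helper87.PA2

open Pool.Agent.Helper68.CO2

/-- a subgroup of order divisible by `p` moves every unit below `n / p` -/
theorem small_of_dvd {p e : ℕ} (hp : p.Prime) (h2 : p ≠ 2) (he : 1 ≤ e) [hn : Fact (1 < p ^ (e + 1))]
    (H : Subgroup (ZMod (p ^ (e + 1)))ˣ) (hH : p ∣ Nat.card H) (x : (ZMod (p ^ (e + 1)))ˣ) :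
    ∃ h ∈ H, ((x * h : (ZMod (p ^ (e + 1)))ˣ) : ZMod (p ^ (e + 1))).val < p ^ e := by
  classical
  have hNZ : NeZero (p ^ (e + 1)) := ⟨by have := hn.out; omega⟩
  have hpF : Fact p.Prime := ⟨hp⟩
  have hc : IsCyclic (ZMod (p ^ (e + 1)))ˣ := ZMod.isCyclic_units_of_prime_pow p hp h2 (e + 1)
  obtain ⟨g, hg⟩ := exists_prime_orderOf_dvd_card' (G := H) p hH
  -- every solution of `u ^ p = 1` is in `H`
  have hsol : ∀ u : (ZMod (p ^ (e + 1)))ˣ, u ^ p = 1 → u ∈ H := by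
    intro u hu
    have hg' : orderOf (g : (ZMod (p ^ (e + 1)))ˣ) = p := by rw [Subgroup.orderOf_coe, hg]
    have hcard := IsCyclic.card_pow_eq_one_le (α := (ZMod (p ^ (e + 1)))ˣ) (n := p) hp.pos
    obtain ⟨T, hT⟩ : ∃ T : Finset (ZMod (p ^ (e + 1)))ˣ,
        T = (range p).image (fun i => (g : (ZMod (p ^ (e + 1)))ˣ) ^ i) := ⟨_, rfl⟩
    have hTc : T.card = p := by
      rw [hT, card_image_of_injOn, card_range]
      intro i hi j hj hij
      rw [coe_range, Set.mem_Iio] at hi hj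
      exact pow_injOn_Iio_orderOf (by rw [hg']; exact hi) (by rw [hg']; exact hj) hij
    have hsub : T ⊆ univ.filter (fun a : (ZMod (p ^ (e + 1)))ˣ => a ^ p = 1) := by
      intro a ha
      rw [hT, mem_image] at ha
      obtain ⟨i, _, rfl⟩ := ha
      rw [mem_filter]
      refine ⟨mem_univ _, ?_⟩
      rw [← pow_mul, mul_comm, pow_mul]
      have : (g : (ZMod (p ^ (e + 1)))ˣ) ^ p = 1 := by
        have h := pow_orderOf_eq_one (g : (ZMod (p ^ (e + 1)))ˣ)
        rwa [hg'] at h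
      rw [this, one_pow]
    have heq := Finset.eq_of_subset_of_card_le hsub (by rw [hTc]; exact hcard)
    have hmem : u ∈ T := by
      rw [heq, mem_filter]
      exact ⟨mem_univ _, hu⟩
    rw [hT, mem_image] at hmem
    obtain ⟨i, _, rfl⟩ := hmem
    exact H.pow_mem g.2 i
  obtain ⟨v, hv⟩ : ∃ v, v = (x : ZMod (p ^ (e + 1))).val := ⟨_, rfl⟩
  obtain ⟨r, hr⟩ : ∃ r, r = v % p ^ e := ⟨_, rfl⟩
  have hpe : 0 < p ^ e := Nat.pow_pos hp.pos
  have hrlt : r < p ^ e := by rw [hr]; exact Nat.mod_lt _ hpe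
  have hpv : ¬ p ∣ v := by
    intro hd
    have h3 := val_coprime x
    rw [← hv] at h3
    have h4 : Nat.Coprime v p := Nat.Coprime.coprime_dvd_right (dvd_pow_self p (Nat.succ_ne_zero e)) h3
    rw [Nat.coprime_comm, Nat.Prime.coprime_iff_not_dvd hp] at h4
    exact h4 hd
  have hpr : ¬ p ∣ r := by
    intro hd
    apply hpv
    have h3 := Nat.div_add_mod v (p ^ e)
    rw [← hr] at h3
    rw [← h3]
    exact (Dvd.dvd.mul_right (dvd_pow_self p (by omega)) _).add hd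
  have hcr : Nat.Coprime r (p ^ (e + 1)) :=
    Nat.Coprime.pow_right _ ((Nat.Prime.coprime_iff_not_dvd hp).2 hpr).symm
  have hrn : r < p ^ (e + 1) := hrlt.trans_le (Nat.pow_le_pow_right hp.pos (by omega))
  refine ⟨x⁻¹ * U (p ^ (e + 1)) r, hsol _ ?_, ?_⟩
  · rw [mul_pow, inv_pow, inv_mul_eq_one]
    apply Units.ext
    rw [Units.val_pow_eq_pow_val, Units.val_pow_eq_pow_val, coe_U hcr]
    have hx : (x : ZMod (p ^ (e + 1))) = (r : ZMod (p ^ (e + 1))) +
        (p : ZMod (p ^ (e + 1))) ^ e * ((v / p ^ e : ℕ) : ZMod (p ^ (e + 1))) := by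
      have h3 := Nat.div_add_mod v (p ^ e)
      rw [← hr] at h3
      have h4 : (x : ZMod (p ^ (e + 1))) = ((v : ℕ) : ZMod (p ^ (e + 1))) := by
        rw [hv, ZMod.natCast_zmod_val]
      rw [h4]
      conv_lhs => rw [← h3]
      push_cast
      ring
    have hz : (p : ZMod (p ^ (e + 1))) ^ (e + 1) = 0 := by
      have := ZMod.natCast_self (p ^ (e + 1))
      rwa [Nat.cast_pow] at this
    have hz2 : (p : ZMod (p ^ (e + 1))) ^ e * (p : ZMod (p ^ (e + 1))) ^ e = 0 := by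
      rw [← pow_add]
      obtain ⟨c, hce⟩ : ∃ c, e + e = (e + 1) + c := ⟨e - 1, by omega⟩
      rw [hce, pow_add _ (e + 1) c, hz, zero_mul]
    obtain ⟨c, hc'⟩ := Polynomial.powAddExpansion (r : ZMod (p ^ (e + 1)))
      ((p : ZMod (p ^ (e + 1))) ^ e * ((v / p ^ e : ℕ) : ZMod (p ^ (e + 1)))) p
    rw [hx, hc']
    have e1 : (p : ZMod (p ^ (e + 1))) * (r : ZMod (p ^ (e + 1))) ^ (p - 1) *
        ((p : ZMod (p ^ (e + 1))) ^ e * ((v / p ^ e : ℕ) : ZMod (p ^ (e + 1)))) = 0 := by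
      have : (p : ZMod (p ^ (e + 1))) * (r : ZMod (p ^ (e + 1))) ^ (p - 1) *
        ((p : ZMod (p ^ (e + 1))) ^ e * ((v / p ^ e : ℕ) : ZMod (p ^ (e + 1)))) =
        (p : ZMod (p ^ (e + 1))) ^ (e + 1) * ((r : ZMod (p ^ (e + 1))) ^ (p - 1) *
          ((v / p ^ e : ℕ) : ZMod (p ^ (e + 1)))) := by ring
      rw [this, hz, zero_mul]
    have e2 : c * ((p : ZMod (p ^ (e + 1))) ^ e * ((v / p ^ e : ℕ) : ZMod (p ^ (e + 1)))) ^ 2 = 0 := by
      have : c * ((p : ZMod (p ^ (e + 1))) ^ e * ((v / p ^ e : ℕ) : ZMod (p ^ (e + 1)))) ^ 2 =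
        ((p : ZMod (p ^ (e + 1))) ^ e * (p : ZMod (p ^ (e + 1))) ^ e) *
          (c * ((v / p ^ e : ℕ) : ZMod (p ^ (e + 1))) ^ 2) := by ring
      rw [this, hz2, zero_mul]
    rw [e1, e2, add_zero, add_zero]
  · rw [mul_inv_cancel_left, coe_U hcr, ZMod.val_natCast_of_lt hrn]
    exact hrlt

/-- if `2` is not in the stabilizer, the order of the stabilizer is prime to `p` or `e = 0` -/
theorem stab_not_dvd {A : Type*} [CommGroup A] {p e : ℕ} (hp : p.Prime) (h2 : p ≠ 2) (he : 1 ≤ e)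
    [hn : Fact (1 < p ^ (e + 1))] {f : ℕ → A} (hf : CM f)
    (hnot : U (p ^ (e + 1)) 2 ∉ HH (p ^ (e + 1)) f hf) :
    ¬ p ∣ Nat.card (HH (p ^ (e + 1)) f hf) := by
  intro hdvd
  have hodd : Odd (p ^ (e + 1)) := (hp.odd_of_ne_two h2).pow
  have hc2 : Nat.Coprime 2 (p ^ (e + 1)) := Nat.coprime_two_left.2 hodd
  have hn3 : 2 < p ^ (e + 1) := by
    have := hn.out
    rcases hodd with ⟨m, hm⟩
    omega
  rw [mem_HH, FF_U f hc2 hn3] at hnot
  push Not at hnot
  obtain ⟨x, hx⟩ := hnot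
  obtain ⟨h, hh, hlt⟩ := small_of_dvd hp h2 he (HH (p ^ (e + 1)) f hf) hdvd x
  apply hx
  apply transport hf hh
  rw [mul_comm h x]
  apply FF_small hf (by norm_num) hc2
  have h3 : p ^ (e + 1) = p ^ e * p := pow_succ p e
  have hp3 : 3 ≤ p := by
    have := hp.two_le
    omega
  have h4 : p ^ e * 3 ≤ p ^ e * p := Nat.mul_le_mul_left _ hp3
  omega

/-- odd prime powers: the failing columns of the exact window -/
theorem fail_pp' {p e : ℕ} (hp : p.Prime) (h2 : p ≠ 2) :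
    ∃ D : ℕ, Odd D ∧ D ∣ p - 1 ∧ (D : ℝ) ≤ 3 * Real.sqrt ((p ^ (e + 1) : ℕ) : ℝ) ∧
      {k : ℕ | 1 ≤ k ∧ k < p ^ (e + 1) ∧ ¬ p ∣ k ∧
        ¬ Mixed (p ^ (e + 1)) k (p ^ (e + 1))}.ncard ≤ D := by
  classical
  have h1n := one_lt_pp (e := e) hp
  have hFact : Fact (1 < p ^ (e + 1)) := ⟨h1n⟩
  have : NeZero (p ^ (e + 1)) := ⟨by omega⟩
  have hodd : Odd (p ^ (e + 1)) := (hp.odd_of_ne_two h2).pow
  by_cases hE : e ≠ 0 ∨ 7 ≤ p
  · have hnot := two_not_mem hp h2 hE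
    obtain ⟨c1, c2⟩ := stab_card hodd cm_lam hnot
    refine ⟨Nat.card (HH (p ^ (e + 1)) lam cm_lam), odd_card_of hp h2 _ c2, ?_, c1, ?_⟩
    · have h3 := Subgroup.card_subgroup_dvd_card (HH (p ^ (e + 1)) lam cm_lam)
      rw [Nat.card_eq_fintype_card (α := (ZMod (p ^ (e + 1)))ˣ), ZMod.card_units_eq_totient,
        Nat.totient_prime_pow hp (Nat.succ_pos e), Nat.succ_sub_one] at h3
      rcases Nat.eq_zero_or_pos e with he | he
      · subst he
        rw [pow_zero, one_mul] at h3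
        exact h3
      · have h4 := stab_not_dvd hp h2 he cm_lam hnot
        have h5 : Nat.Coprime (Nat.card (HH (p ^ (e + 1)) lam cm_lam)) (p ^ e) :=
          Nat.Coprime.pow_right _ ((Nat.Prime.coprime_iff_not_dvd hp).2 h4).symm
        exact h5.dvd_of_dvd_mul_left h3
    · have hcop : ∀ k, ¬ p ∣ k → Nat.Coprime k (p ^ (e + 1)) := fun k hpk =>
        Nat.Coprime.pow_right _ ((Nat.Prime.coprime_iff_not_dvd hp).2 hpk).symm
      obtain ⟨S, hS⟩ : ∃ S : Set ℕ, S = {k : ℕ | 1 ≤ k ∧ k < p ^ (e + 1) ∧ ¬ p ∣ k ∧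
          ¬ Mixed (p ^ (e + 1)) k (p ^ (e + 1))} := ⟨_, rfl⟩
      rw [← hS]
      have hmem : ∀ k ∈ S, 1 ≤ k ∧ k < p ^ (e + 1) ∧ ¬ p ∣ k ∧
          ¬ Mixed (p ^ (e + 1)) k (p ^ (e + 1)) := by
        intro k hk
        rw [hS] at hk
        exact hk
      rcases S.eq_empty_or_nonempty with h | ⟨k₀, hk₀⟩
      · rw [h, Set.ncard_empty]
        exact Nat.zero_le _
      · obtain ⟨a1, a2, a3, a4⟩ := hmem k₀ hk₀
        obtain ⟨s₀, hs₀⟩ := const_of_not_mixed a4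
        have hQ : Nat.card (HH (p ^ (e + 1)) lam cm_lam) =
            ((HH (p ^ (e + 1)) lam cm_lam : Set (ZMod (p ^ (e + 1)))ˣ)).ncard := by
          rw [← Nat.card_coe_set_eq]
          rfl
        rw [hQ]
        refine Set.ncard_le_ncard_of_injOn
          (fun k => U (p ^ (e + 1)) k * (U (p ^ (e + 1)) k₀)⁻¹) ?_ ?_ (Set.toFinite _)
        · intro k hk
          obtain ⟨b1, b2, b3, b4⟩ := hmem k hk
          obtain ⟨s, hs⟩ := const_of_not_mixed b4
          exact ratio_mem cm_lam _ _ (const_class' a1 a2 (hcop _ a3) hs₀)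
            (const_class' b1 b2 (hcop _ b3) hs)
        · intro k hk l hl hkl
          obtain ⟨b1, b2, b3, _⟩ := hmem k hk
          obtain ⟨c1, c2, c3, _⟩ := hmem l hl
          have h5 : U (p ^ (e + 1)) k = U (p ^ (e + 1)) l := mul_right_cancel hkl
          have h6 : (k : ZMod (p ^ (e + 1))) = (l : ZMod (p ^ (e + 1))) := by
            rw [← coe_U (hcop k b3), ← coe_U (hcop l c3), h5]
          have h7 := (ZMod.natCast_eq_natCast_iff' k l (p ^ (e + 1))).1 h6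
          rwa [Nat.mod_eq_of_lt b2, Nat.mod_eq_of_lt c2] at h7
  · push Not at hE
    obtain ⟨he, hp7⟩ := hE
    refine ⟨1, odd_one, one_dvd _, ?_, ?_⟩
    · have h3 : (1 : ℝ) ≤ Real.sqrt ((p ^ (e + 1) : ℕ) : ℝ) := by
        rw [Real.one_le_sqrt]
        exact_mod_cast h1n.le
      push_cast at h3 ⊢
      linarith
    · rcases odd_prime_cases hp h2 with rfl | rfl | h7
      · exact card_fail (v := 1) (o := 1) (by norm_num) (by norm_num) (by rw [he]; norm_num)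
      · exact card_fail (v := 2) (o := 1) (by norm_num) (by norm_num) (by rw [he]; norm_num)
      · omega

end Pool.Agent.Helper87.PA2
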