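import Mathlib
import Pool.Agent.Helper87.PA.ColsPP2

/-!
# Failing columns for powers of two: at most four
-/

set_option autoImplicit false

open Finset

namespace Pool.Agent.Helper87.PA2

open Pool.Agent.Helper68.CO2

/-- the ratio of two failing columns is in the stabilizer -/
theorem ratio_fail {n : ℕ} [hn : Fact (1 < n)] {k₁ k₂ : ℕ} (a1 : 1 ≤ k₁) (a2 : k₁ < n)
    (a3 : Nat.Coprime k₁ n) (a4 : ¬ Mixed n k₁ n) (b1 : 1 ≤ k₂) (b2 : k₂ < n)
    (b3 : Nat.Coprime k₂ n) (b4 : ¬ Mixed n k₂ n) :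
    U n k₂ * (U n k₁)⁻¹ ∈ HH n lam cm_lam := by
  obtain ⟨s₁, hs₁⟩ := const_of_not_mixed a4
  obtain ⟨s₂, hs₂⟩ := const_of_not_mixed b4
  exact ratio_mem cm_lam _ _ (const_class' a1 a2 a3 hs₁) (const_class' b1 b2 b3 hs₂)

/-- there are at most as many failing columns as elements of the stabilizer -/
theorem fail_le_card {n : ℕ} [hn : Fact (1 < n)] :
    {k : ℕ | 1 ≤ k ∧ k < n ∧ Nat.Coprime k n ∧ ¬ Mixed n k n}.ncard ≤
      Nat.card (HH n lam cm_lam) := by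
  classical
  have hNZ : NeZero n := ⟨by have := hn.out; omega⟩
  obtain ⟨S, hS⟩ : ∃ S : Set ℕ, S = {k : ℕ | 1 ≤ k ∧ k < n ∧ Nat.Coprime k n ∧ ¬ Mixed n k n} :=
    ⟨_, rfl⟩
  rw [← hS]
  have hmem : ∀ k ∈ S, 1 ≤ k ∧ k < n ∧ Nat.Coprime k n ∧ ¬ Mixed n k n := by
    intro k hk
    rw [hS] at hk
    exact hk
  rcases S.eq_empty_or_nonempty with h | ⟨k₀, hk₀⟩
  · rw [h, Set.ncard_empty]
    exact Nat.zero_le _
  · obtain ⟨a1, a2, a3, a4⟩ := hmem k₀ hk₀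
    have hQ : Nat.card (HH n lam cm_lam) = ((HH n lam cm_lam : Set (ZMod n)ˣ)).ncard := by
      rw [← Nat.card_coe_set_eq]
      rfl
    rw [hQ]
    refine Set.ncard_le_ncard_of_injOn (fun k => U n k * (U n k₀)⁻¹) ?_ ?_ (Set.toFinite _)
    · intro k hk
      obtain ⟨b1, b2, b3, b4⟩ := hmem k hk
      exact ratio_fail a1 a2 a3 a4 b1 b2 b3 b4
    · intro k hk l hl hkl
      obtain ⟨b1, b2, b3, _⟩ := hmem k hk
      obtain ⟨c1, c2, c3, _⟩ := hmem l hl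
      have h5 : U n k = U n l := mul_right_cancel hkl
      have h6 : (k : ZMod n) = (l : ZMod n) := by
        rw [← coe_U b3, ← coe_U c3, h5]
      have h7 := (ZMod.natCast_eq_natCast_iff' k l n).1 h6
      rwa [Nat.mod_eq_of_lt b2, Nat.mod_eq_of_lt c2] at h7

/-- three is not in the stabilizer modulo `2 ^ m`, `m ≥ 5` -/
theorem three_not_mem {e : ℕ} [hn : Fact (1 < 2 ^ (e + 5))] :
    U (2 ^ (e + 5)) 3 ∉ HH (2 ^ (e + 5)) lam cm_lam := by
  intro hg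
  have h32 : 32 ≤ 2 ^ (e + 5) := by
    have : 2 ^ 5 ≤ 2 ^ (e + 5) := Nat.pow_le_pow_right (by norm_num) (by omega)
    omega
  have hc17 : Nat.Coprime 17 (2 ^ (e + 5)) := Nat.Coprime.pow_right _ (by norm_num)
  exact contra_two (e := e + 2) hg (FF_U lam hc17 (lt_of_lt_of_le (by norm_num) h32))

theorem four_q {e : ℕ} : (4 : ZMod (2 ^ (e + 5))) * 2 ^ (e + 3) = 0 := by
  have h := ZMod.natCast_self (2 ^ (e + 5))
  rw [Nat.cast_pow] at h
  have h2 : (2 : ZMod (2 ^ (e + 5))) ^ (e + 5) = 0 := h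
  rw [← h2]
  ring

theorem q_q {e : ℕ} : (2 : ZMod (2 ^ (e + 5))) ^ (e + 3) * 2 ^ (e + 3) = 0 := by
  have h := four_q (e := e)
  have h2 : (2 : ZMod (2 ^ (e + 5))) ^ (e + 3) * 2 ^ (e + 3) =
      (4 * 2 ^ (e + 3)) * 2 ^ (e + 1) := by ring
  rw [h2, h, zero_mul]

theorem pow_w {R : Type*} [CommRing R] (q c : R) (hq : q * q = 0) (j : ℕ) :
    (1 + q * c) ^ j = 1 + q * c * j := by
  induction j with
  | zero => simp
  | succ j ih =>
    rw [pow_succ (1 + q * c) j, ih]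
    have h2 : (1 + q * c * (j : R)) * (1 + q * c) =
        1 + q * c * (j + 1) + (q * q) * (c * c * j) := by ring
    rw [h2, hq, zero_mul, add_zero]
    push_cast
    ring

/-- an element `1 + c n / 4` with `c` odd moves everything below `n / 4` -/
theorem small_of_quarter {e : ℕ} [hn : Fact (1 < 2 ^ (e + 5))] (x w : (ZMod (2 ^ (e + 5)))ˣ) {c : ℕ}
    (hc : Odd c) (hw : (w : ZMod (2 ^ (e + 5))) = 1 + 2 ^ (e + 3) * (c : ZMod (2 ^ (e + 5)))) :
    ∃ j : ℕ, ((x * w ^ j : (ZMod (2 ^ (e + 5)))ˣ) : ZMod (2 ^ (e + 5))).val < 2 ^ (e + 3) := by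
  have hNZ : NeZero (2 ^ (e + 5)) := ⟨by have := hn.out; omega⟩
  obtain ⟨v, hv⟩ : ∃ v, v = (x : ZMod (2 ^ (e + 5))).val := ⟨_, rfl⟩
  have hvodd : Odd v := by
    have h3 := val_coprime x
    rw [← hv] at h3
    have h4 : Nat.Coprime v 2 := Nat.Coprime.coprime_dvd_right (dvd_pow_self 2 (by omega)) h3
    exact Nat.coprime_two_right.1 h4
  obtain ⟨t, ht⟩ : ∃ t, t = v / 2 ^ (e + 3) := ⟨_, rfl⟩
  obtain ⟨r, hr⟩ : ∃ r, r = v % 2 ^ (e + 3) := ⟨_, rfl⟩
  have hrlt : r < 2 ^ (e + 3) := by rw [hr]; exact Nat.mod_lt _ (by positivity)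
  have hdm : 2 ^ (e + 3) * t + r = v := by rw [ht, hr]; exact Nat.div_add_mod _ _
  refine ⟨3 * t * v * c, ?_⟩
  have hx : (x : ZMod (2 ^ (e + 5))) = (v : ZMod (2 ^ (e + 5))) := by
    rw [hv, ZMod.natCast_zmod_val]
  obtain ⟨M, hM⟩ : ∃ M, (v * c) * (v * c) = 4 * M + 1 := by
    obtain ⟨a, ha⟩ := hvodd.mul hc
    exact ⟨a * a + a, by rw [ha]; ring⟩
  have hMz : (v : ZMod (2 ^ (e + 5))) * c * (v * c) = 4 * M + 1 := by exact_mod_cast congrArg (Nat.cast (R := ZMod (2 ^ (e + 5)))) hM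
  have hvz : (v : ZMod (2 ^ (e + 5))) = 2 ^ (e + 3) * t + r := by
    rw [← hdm]
    push_cast
    ring
  have key : ((x * w ^ (3 * t * v * c) : (ZMod (2 ^ (e + 5)))ˣ) : ZMod (2 ^ (e + 5))) =
      ((r : ℕ) : ZMod (2 ^ (e + 5))) := by
    rw [Units.val_mul, Units.val_pow_eq_pow_val, hw, pow_w _ _ q_q, hx]
    push_cast
    have h2 : (v : ZMod (2 ^ (e + 5))) * (1 + 2 ^ (e + 3) * (c : ZMod (2 ^ (e + 5))) *
        (3 * (t : ZMod (2 ^ (e + 5))) * v * c)) =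
        v + 3 * t * 2 ^ (e + 3) * (v * c * (v * c)) := by ring
    rw [h2, hMz]
    have h3 : (v : ZMod (2 ^ (e + 5))) + 3 * t * 2 ^ (e + 3) * (4 * M + 1) =
        (v - 2 ^ (e + 3) * t) + (4 * 2 ^ (e + 3)) * (t + 3 * t * M) := by ring
    rw [h3, four_q, zero_mul, add_zero, hvz]
    ring
  rw [key, ZMod.val_natCast_of_lt]
  · exact hrlt
  · have : 2 ^ (e + 3) < 2 ^ (e + 5) := Nat.pow_lt_pow_right (by norm_num) (by omega)
    omega

/-- squaring leads to an element `1 + c n / 4` -/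
theorem climb {e : ℕ} (H : Subgroup (ZMod (2 ^ (e + 5)))ˣ) : ∀ (t s c : ℕ)
    (u : (ZMod (2 ^ (e + 5)))ˣ), u ∈ H → s + t = e + 3 → 2 ≤ s → Odd c →
    (u : ZMod (2 ^ (e + 5))) = 1 + 2 ^ s * c →
    ∃ w ∈ H, ∃ c' : ℕ, Odd c' ∧ (w : ZMod (2 ^ (e + 5))) = 1 + 2 ^ (e + 3) * c' := by
  intro t
  induction t with
  | zero =>
    intro s c u hu hs h2 hc huc
    rw [add_zero] at hs
    exact ⟨u, hu, c, hc, by rw [huc, hs]⟩
  | succ t ih =>
    intro s c u hu hs h2 hc huc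
    obtain ⟨s', rfl⟩ : ∃ s', s = s' + 2 := ⟨s - 2, by omega⟩
    refine ih (s' + 2 + 1) (c + 2 ^ (s' + 1) * (c * c)) (u * u) (H.mul_mem hu hu) (by omega)
      (by omega) ?_ ?_
    · apply hc.add_even
      rw [pow_succ]
      exact (even_two.mul_left _).mul_right _
    · rw [Units.val_mul, huc]
      push_cast
      ring

theorem mod_four_mul {e : ℕ} (a b : (ZMod (2 ^ (e + 5)))ˣ) :
    ((a * b : (ZMod (2 ^ (e + 5)))ˣ) : ZMod (2 ^ (e + 5))).val % 4 =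
      ((a : ZMod (2 ^ (e + 5))).val * (b : ZMod (2 ^ (e + 5))).val) % 4 := by
  rw [Units.val_mul, ZMod.val_mul, Nat.mod_mod_of_dvd]
  exact ⟨2 ^ (e + 3), by ring⟩

/-- no element of the stabilizer is `1 + c n / 4` with `c` odd -/
theorem no_quarter {e : ℕ} [hn : Fact (1 < 2 ^ (e + 5))] (w : (ZMod (2 ^ (e + 5)))ˣ)
    (hwH : w ∈ HH (2 ^ (e + 5)) lam cm_lam) {c : ℕ}
    (hc : Odd c) (hw : (w : ZMod (2 ^ (e + 5))) = 1 + 2 ^ (e + 3) * (c : ZMod (2 ^ (e + 5)))) : False := by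
  have hnot := three_not_mem (e := e)
  have hc3 : Nat.Coprime 3 (2 ^ (e + 5)) := Nat.Coprime.pow_right _ (by norm_num)
  have h32 : 32 ≤ 2 ^ (e + 5) := by
    have : 2 ^ 5 ≤ 2 ^ (e + 5) := Nat.pow_le_pow_right (by norm_num) (by omega)
    omega
  rw [mem_HH, FF_U lam hc3 (by omega)] at hnot
  push Not at hnot
  obtain ⟨x, hx⟩ := hnot
  obtain ⟨j, hj⟩ := small_of_quarter x w hc hw
  apply hx
  apply transport cm_lam ((HH (2 ^ (e + 5)) lam cm_lam).pow_mem hwH j)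
  rw [mul_comm (w ^ j) x]
  apply FF_small cm_lam (by norm_num) hc3
  have h4 : 2 ^ (e + 5) = 2 ^ (e + 3) * 4 := by ring
  omega

/-- the elements of the stabilizer that are `1` modulo `4` -/
theorem stab_one_mod_four {e : ℕ} [hn : Fact (1 < 2 ^ (e + 5))] (u : (ZMod (2 ^ (e + 5)))ˣ)
    (hu : u ∈ HH (2 ^ (e + 5)) lam cm_lam) (h4 : (u : ZMod (2 ^ (e + 5))).val % 4 = 1) :
    (u : ZMod (2 ^ (e + 5))) = 1 ∨ (u : ZMod (2 ^ (e + 5))) = 1 + 2 ^ (e + 4) := by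
  have hNZ : NeZero (2 ^ (e + 5)) := ⟨by have := hn.out; omega⟩
  by_cases h1 : (u : ZMod (2 ^ (e + 5))) = 1
  · exact Or.inl h1
  by_cases h2 : (u : ZMod (2 ^ (e + 5))) = 1 + 2 ^ (e + 4)
  · exact Or.inr h2
  exfalso
  obtain ⟨v, hv⟩ : ∃ v, v = (u : ZMod (2 ^ (e + 5))).val := ⟨_, rfl⟩
  rw [← hv] at h4
  have hx : (u : ZMod (2 ^ (e + 5))) = (v : ZMod (2 ^ (e + 5))) := by
    rw [hv, ZMod.natCast_zmod_val]
  have hvlt : v < 2 ^ (e + 5) := by rw [hv]; exact val_lt u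
  have hv1 : v - 1 ≠ 0 := by
    intro h
    apply h1
    have : v = 1 := by omega
    rw [hx, this, Nat.cast_one]
  obtain ⟨s, c, hc, hsc⟩ := Nat.exists_eq_two_pow_mul_odd hv1
  have hvsc : v = 1 + 2 ^ s * c := by omega
  have hs2 : 2 ≤ s := by
    by_contra hlt
    push Not at hlt
    have : s = 0 ∨ s = 1 := by omega
    rcases this with rfl | rfl
    · obtain ⟨a, ha⟩ := hc
      omega
    · obtain ⟨a, ha⟩ := hc
      omega
  have hcpos : 0 < c := hc.pos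
  have hs3 : s ≤ e + 3 := by
    by_contra hlt
    push Not at hlt
    have h5 : s = e + 4 ∨ e + 5 ≤ s := by omega
    rcases h5 with rfl | h5
    · rcases (show c = 1 ∨ 2 ≤ c by omega) with rfl | h6
      · apply h2
        rw [hx, hvsc]
        push_cast
        ring
      · have h7 : 2 ^ (e + 4) * 2 ≤ 2 ^ (e + 4) * c := Nat.mul_le_mul_left _ h6
        have h8 : 2 ^ (e + 5) = 2 ^ (e + 4) * 2 := by ring
        omega
    · have h7 : 2 ^ (e + 5) ≤ 2 ^ s := Nat.pow_le_pow_right (by norm_num) h5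
      have h8 : 2 ^ s * 1 ≤ 2 ^ s * c := Nat.mul_le_mul_left _ hcpos
      omega
  obtain ⟨w, hwH, c', hc', hw⟩ := climb (HH (2 ^ (e + 5)) lam cm_lam) (e + 3 - s) s c u hu
    (by omega) hs2 hc (by rw [hx, hvsc]; push_cast; ring)
  exact no_quarter w hwH hc' hw

/-- the stabilizer has at most four elements -/
theorem stab_card_two {e : ℕ} [hn : Fact (1 < 2 ^ (e + 5))] :
    Nat.card (HH (2 ^ (e + 5)) lam cm_lam) ≤ 4 := by
  classical
  have hNZ : NeZero (2 ^ (e + 5)) := ⟨by have := hn.out; omega⟩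
  have hodd : ∀ u : (ZMod (2 ^ (e + 5)))ˣ, (u : ZMod (2 ^ (e + 5))).val % 4 = 1 ∨
      (u : ZMod (2 ^ (e + 5))).val % 4 = 3 := by
    intro u
    have h3 := val_coprime u
    have h4 : Nat.Coprime (u : ZMod (2 ^ (e + 5))).val 2 :=
      Nat.Coprime.coprime_dvd_right (dvd_pow_self 2 (by omega)) h3
    obtain ⟨a, ha⟩ := Nat.coprime_two_right.1 h4
    omega
  -- the unit `1 + n / 2`
  obtain ⟨h, hh⟩ : ∃ h : (ZMod (2 ^ (e + 5)))ˣ, (h : ZMod (2 ^ (e + 5))) = 1 + 2 ^ (e + 4) := by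
    refine ⟨U (2 ^ (e + 5)) (1 + 2 ^ (e + 4)), ?_⟩
    rw [coe_U]
    · push_cast
      ring
    · apply Nat.Coprime.pow_right
      rw [Nat.coprime_two_right]
      rw [pow_succ]
      exact odd_one.add_even (even_two.mul_left _)
  have hone : ∀ u ∈ HH (2 ^ (e + 5)) lam cm_lam, (u : ZMod (2 ^ (e + 5))).val % 4 = 1 →
      u = 1 ∨ u = h := by
    intro u hu h4
    rcases stab_one_mod_four u hu h4 with h5 | h5
    · exact Or.inl (Units.ext h5)
    · exact Or.inr (Units.ext (h5.trans hh.symm))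
  have hsub : ∃ a b c d : (ZMod (2 ^ (e + 5)))ˣ,
      univ.filter (fun u => u ∈ HH (2 ^ (e + 5)) lam cm_lam) ⊆ {a, b, c, d} := by
    by_cases hex : ∃ u₀ ∈ HH (2 ^ (e + 5)) lam cm_lam, (u₀ : ZMod (2 ^ (e + 5))).val % 4 = 3
    · obtain ⟨u₀, hu₀, h₀⟩ := hex
      refine ⟨1, h, u₀⁻¹, u₀⁻¹ * h, ?_⟩
      intro u hu
      rw [mem_filter] at hu
      simp only [mem_insert, mem_singleton]
      rcases hodd u with h4 | h4
      · rcases hone u hu.2 h4 with h5 | h5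
        · exact Or.inl h5
        · exact Or.inr (Or.inl h5)
      · have h6 : ((u₀ * u : (ZMod (2 ^ (e + 5)))ˣ) : ZMod (2 ^ (e + 5))).val % 4 = 1 := by
          rw [mod_four_mul, Nat.mul_mod, h₀, h4]
        rcases hone (u₀ * u) ((HH (2 ^ (e + 5)) lam cm_lam).mul_mem hu₀ hu.2) h6 with h5 | h5
        · exact Or.inr (Or.inr (Or.inl (eq_inv_of_mul_eq_one_right h5)))
        · exact Or.inr (Or.inr (Or.inr (by rw [← h5, inv_mul_cancel_left])))
    · push Not at hex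
      refine ⟨1, h, 1, 1, ?_⟩
      intro u hu
      rw [mem_filter] at hu
      simp only [mem_insert, mem_singleton]
      rcases hodd u with h4 | h4
      · rcases hone u hu.2 h4 with h5 | h5
        · exact Or.inl h5
        · exact Or.inr (Or.inl h5)
      · exact absurd h4 (hex u hu.2)
  obtain ⟨a, b, c, d, hs⟩ := hsub
  rw [Nat.card_eq_fintype_card, Fintype.card_subtype]
  exact (card_le_card hs).trans card_le_four

/-- powers of two: at most four failing columns -/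
theorem fail_two (m : ℕ) :
    {k : ℕ | 1 ≤ k ∧ k < 2 ^ (m + 1) ∧ ¬ 2 ∣ k ∧
      ¬ Mixed (2 ^ (m + 1)) k (2 ^ (m + 1))}.ncard ≤ 4 := by
  have hfin : ∀ a b c d : ℕ, ∀ S : Set ℕ, (∀ k ∈ S, k = a ∨ k = b ∨ k = c ∨ k = d) →
      S.ncard ≤ 4 := by
    intro a b c d S hS
    classical
    have h1 : S ⊆ ((({a, b, c, d} : Finset ℕ) : Set ℕ)) := by
      intro k hk
      simpa using hS k hk
    refine (Set.ncard_le_ncard h1 (Finset.finite_toSet _)).trans ?_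
    rw [Set.ncard_coe_finset]
    exact card_le_four
  rcases Nat.lt_or_ge m 3 with hm | hm
  · apply hfin 1 3 5 7
    rintro k ⟨h1, h2, h3, _⟩
    have h4 : 2 ^ (m + 1) ≤ 2 ^ 3 := Nat.pow_le_pow_right (by norm_num) (by omega)
    omega
  · rcases Nat.lt_or_ge m 4 with hm' | hm'
    · obtain rfl : m = 3 := by omega
      apply hfin 3 7 11 13
      rintro k ⟨h1, h2, h3, h4⟩
      have h16 : 2 ^ (3 + 1) = 16 := by norm_num
      rw [h16] at h2 h4
      have hk : k = 1 ∨ k = 5 ∨ k = 9 ∨ k = 15 ∨ k = 3 ∨ k = 7 ∨ k = 11 ∨ k = 13 := by omega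
      rcases hk with rfl | rfl | rfl | rfl | h | h | h | h
      · exact absurd ⟨⟨0, by norm_num, by simp⟩, ⟨1, by norm_num, odd_prime (by norm_num)⟩⟩ h4
      · exact absurd ⟨⟨1, by norm_num, even_mul_prime (a := 3) (b := 7) (by norm_num) (by norm_num)⟩,
          ⟨0, by norm_num, odd_prime (by norm_num)⟩⟩ h4
      · exact absurd ⟨⟨0, by norm_num, even_mul_prime (a := 3) (b := 3) (by norm_num) (by norm_num)⟩,
          ⟨2, by norm_num, odd_prime (by norm_num)⟩⟩ h4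
      · exact absurd ⟨⟨0, by norm_num, even_mul_prime (a := 3) (b := 5) (by norm_num) (by norm_num)⟩,
          ⟨1, by norm_num, odd_prime (by norm_num)⟩⟩ h4
      all_goals omega
    · obtain ⟨e, rfl⟩ : ∃ e, m = e + 4 := ⟨m - 4, by omega⟩
      have hn : Fact (1 < 2 ^ (e + 5)) := ⟨Nat.one_lt_pow (by omega) (by norm_num)⟩
      have h1 := fail_le_card (n := 2 ^ (e + 5))
      refine le_trans (le_of_eq ?_) (h1.trans stab_card_two)
      congr 1
      ext k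
      simp only [Set.mem_ofPred_eq]
      have h2 : (¬ 2 ∣ k) ↔ Nat.Coprime k (2 ^ (e + 5)) := by
        constructor
        · intro h
          exact Nat.Coprime.pow_right _
            ((Nat.Prime.coprime_iff_not_dvd Nat.prime_two).2 h).symm
        · intro h
          have h4 : Nat.Coprime k 2 :=
            Nat.Coprime.coprime_dvd_right (dvd_pow_self 2 (by omega)) h
          exact (Nat.Prime.coprime_iff_not_dvd Nat.prime_two).1 h4.symm
      rw [h2]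

/-- odd prime powers: the set of failing columns -/
theorem fail_pp_struct {p e : ℕ} (hp : p.Prime) (h2 : p ≠ 2) :
    ∃ D : ℕ, Odd D ∧ D ∣ p - 1 ∧ (D : ℝ) ≤ 3 * Real.sqrt ((p ^ (e + 1) : ℕ) : ℝ) ∧
      (∀ k₁ k₂ : ℕ, (1 ≤ k₁ ∧ k₁ < p ^ (e + 1) ∧ ¬ p ∣ k₁ ∧
          ¬ Mixed (p ^ (e + 1)) k₁ (p ^ (e + 1))) →
        (1 ≤ k₂ ∧ k₂ < p ^ (e + 1) ∧ ¬ p ∣ k₂ ∧ ¬ Mixed (p ^ (e + 1)) k₂ (p ^ (e + 1))) →
        k₁ ^ D ≡ k₂ ^ D [MOD p ^ (e + 1)]) ∧
      {k : ℕ | 1 ≤ k ∧ k < p ^ (e + 1) ∧ ¬ p ∣ k ∧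
        ¬ Mixed (p ^ (e + 1)) k (p ^ (e + 1))}.ncard ≤ D := by
  classical
  have h1n := one_lt_pp (e := e) hp
  have hFact : Fact (1 < p ^ (e + 1)) := ⟨h1n⟩
  have hNZ : NeZero (p ^ (e + 1)) := ⟨by omega⟩
  have hodd : Odd (p ^ (e + 1)) := (hp.odd_of_ne_two h2).pow
  have hcop : ∀ k, ¬ p ∣ k ↔ Nat.Coprime k (p ^ (e + 1)) := by
    intro k
    constructor
    · intro h
      exact Nat.Coprime.pow_right _ ((Nat.Prime.coprime_iff_not_dvd hp).2 h).symm
    · intro h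
      have h4 : Nat.Coprime k p := Nat.Coprime.coprime_dvd_right (dvd_pow_self p (by omega)) h
      exact (Nat.Prime.coprime_iff_not_dvd hp).1 h4.symm
  by_cases hE : e ≠ 0 ∨ 7 ≤ p
  · have hnot := two_not_mem hp h2 hE
    obtain ⟨c1, c2⟩ := stab_card hodd cm_lam hnot
    refine ⟨Nat.card (HH (p ^ (e + 1)) lam cm_lam), odd_card_of hp h2 _ c2, ?_, c1, ?_, ?_⟩
    · have h3 := Subgroup.card_subgroup_dvd_card (HH (p ^ (e + 1)) lam cm_lam)
      rw [Nat.card_eq_fintype_card (α := (ZMod (p ^ (e + 1)))ˣ), ZMod.card_units_eq_totient,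
        Nat.totient_prime_pow hp (Nat.succ_pos e), Nat.succ_sub_one] at h3
      rcases Nat.eq_zero_or_pos e with he | he
      · subst he
        rw [pow_zero, one_mul] at h3
        exact h3
      · have h4 := stab_not_dvd hp h2 he cm_lam hnot
        have h5 : Nat.Coprime (Nat.card (HH (p ^ (e + 1)) lam cm_lam)) (p ^ e) :=
          Nat.Coprime.pow_right _ ((Nat.Prime.coprime_iff_not_dvd hp).2 h4).symm
        exact h5.dvd_of_dvd_mul_left h3
    · rintro k₁ k₂ ⟨a1, a2, a3, a4⟩ ⟨b1, b2, b3, b4⟩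
      have h3 := ratio_fail a1 a2 ((hcop _).1 a3) a4 b1 b2 ((hcop _).1 b3) b4
      have h4 : (U (p ^ (e + 1)) k₂ * (U (p ^ (e + 1)) k₁)⁻¹) ^
          Nat.card (HH (p ^ (e + 1)) lam cm_lam) = 1 := by
        have h5 := pow_card_eq_one' (x := (⟨_, h3⟩ : HH (p ^ (e + 1)) lam cm_lam))
        have h6 : (((⟨_, h3⟩ : HH (p ^ (e + 1)) lam cm_lam) ^
            Nat.card (HH (p ^ (e + 1)) lam cm_lam) : HH (p ^ (e + 1)) lam cm_lam) :
            (ZMod (p ^ (e + 1)))ˣ) = 1 := by rw [h5]; rfl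
        exact h6
      rw [mul_pow, inv_pow, mul_inv_eq_one] at h4
      have h7 := congrArg (Units.val) h4
      rw [Units.val_pow_eq_pow_val, Units.val_pow_eq_pow_val, coe_U ((hcop _).1 a3),
        coe_U ((hcop _).1 b3)] at h7
      rw [← ZMod.natCast_eq_natCast_iff]
      push_cast
      exact h7.symm
    · refine le_trans (le_of_eq ?_) (fail_le_card (n := p ^ (e + 1)))
      congr 1
      ext k
      simp only [Set.mem_ofPred_eq]
      rw [hcop]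
  · push Not at hE
    obtain ⟨he, hp7⟩ := hE
    have hcard : {k : ℕ | 1 ≤ k ∧ k < p ^ (e + 1) ∧ ¬ p ∣ k ∧
        ¬ Mixed (p ^ (e + 1)) k (p ^ (e + 1))}.ncard ≤ 1 := by
      rcases odd_prime_cases hp h2 with rfl | rfl | h7
      · exact card_fail (v := 1) (o := 1) (by norm_num) (by norm_num) (by rw [he]; norm_num)
      · exact card_fail (v := 2) (o := 1) (by norm_num) (by norm_num) (by rw [he]; norm_num)
      · omega
    refine ⟨1, odd_one, one_dvd _, ?_, ?_, hcard⟩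
    · have h3 : (1 : ℝ) ≤ Real.sqrt ((p ^ (e + 1) : ℕ) : ℝ) := by
        rw [Real.one_le_sqrt]
        exact_mod_cast h1n.le
      push_cast at h3 ⊢
      linarith
    · intro k₁ k₂ a b
      have hf : {k : ℕ | 1 ≤ k ∧ k < p ^ (e + 1) ∧ ¬ p ∣ k ∧
        ¬ Mixed (p ^ (e + 1)) k (p ^ (e + 1))}.Finite :=
        (Set.finite_Iio (p ^ (e + 1))).subset (fun k hk => hk.2.1)
      rw [(Set.ncard_le_one hf).1 hcard k₁ a k₂ b]

end Pool.Agent.Helper87.PA2
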