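import Mathlib
import Pool.Agent.Helper87.PA.Cols2
import Pool.Agent.Helper68.CO2.Same

/-!
# Failing columns for all prime powers: one statement
-/

set_option autoImplicit false

open Finset

namespace Pool.Agent.Helper87.PA2

open Pool.Agent.Helper68.CO2

/-- powers of two: the set of failing columns -/
theorem fail_two_struct (m : ℕ) :
    ∃ D : ℕ, D ∣ 4 ∧
      (∀ k₁ k₂ : ℕ, (1 ≤ k₁ ∧ k₁ < 2 ^ (m + 1) ∧ ¬ 2 ∣ k₁ ∧
          ¬ Mixed (2 ^ (m + 1)) k₁ (2 ^ (m + 1))) →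
        (1 ≤ k₂ ∧ k₂ < 2 ^ (m + 1) ∧ ¬ 2 ∣ k₂ ∧ ¬ Mixed (2 ^ (m + 1)) k₂ (2 ^ (m + 1))) →
        k₁ ^ D ≡ k₂ ^ D [MOD 2 ^ (m + 1)]) ∧
      {k : ℕ | 1 ≤ k ∧ k < 2 ^ (m + 1) ∧ ¬ 2 ∣ k ∧
        ¬ Mixed (2 ^ (m + 1)) k (2 ^ (m + 1))}.ncard ≤ D := by
  classical
  rcases Nat.lt_or_ge m 4 with hm | hm
  · refine ⟨4, dvd_rfl, ?_, fail_two m⟩
    rintro k₁ k₂ ⟨_, _, h1, _⟩ ⟨_, _, h2, _⟩
    have h16 : ∀ k : ℕ, ¬ 2 ∣ k → k ^ 4 ≡ 1 [MOD 16] := by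
      intro k hk
      have hk' : Odd k := by
        rw [Nat.odd_iff]
        omega
      obtain ⟨a, rfl⟩ := hk'
      obtain ⟨b, hb⟩ := Nat.even_mul_succ_self a
      have h3 : (2 * a + 1) ^ 4 = (4 * (a * (a + 1)) + 1) ^ 2 := by ring
      have h4 : (4 * (b + b) + 1) ^ 2 = 1 + 16 * (4 * b ^ 2 + b) := by ring
      rw [h3, hb, h4]
      unfold Nat.ModEq
      rw [Nat.add_mul_mod_self_left]
    have h5 := (h16 k₁ h1).trans (h16 k₂ h2).symm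
    refine h5.of_dvd ?_
    have h6 : 2 ^ (m + 1) ∣ 2 ^ 4 := pow_dvd_pow 2 (by omega)
    exact h6
  · obtain ⟨e, rfl⟩ : ∃ e, m = e + 4 := ⟨m - 4, by omega⟩
    have hn : Fact (1 < 2 ^ (e + 5)) := ⟨Nat.one_lt_pow (by omega) (by norm_num)⟩
    have hNZ : NeZero (2 ^ (e + 5)) := ⟨by have := hn.out; omega⟩
    have hcop : ∀ k : ℕ, (¬ 2 ∣ k) ↔ Nat.Coprime k (2 ^ (e + 5)) := by
      intro k
      constructor
      · intro h
        exact Nat.Coprime.pow_right _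
          ((Nat.Prime.coprime_iff_not_dvd Nat.prime_two).2 h).symm
      · intro h
        have h4 : Nat.Coprime k 2 :=
          Nat.Coprime.coprime_dvd_right (dvd_pow_self 2 (by omega)) h
        exact (Nat.Prime.coprime_iff_not_dvd Nat.prime_two).1 h4.symm
    refine ⟨Nat.card (HH (2 ^ (e + 5)) lam cm_lam), ?_, ?_, ?_⟩
    · have h3 := Subgroup.card_subgroup_dvd_card (HH (2 ^ (e + 5)) lam cm_lam)
      rw [Nat.card_eq_fintype_card (α := (ZMod (2 ^ (e + 5)))ˣ), ZMod.card_units_eq_totient,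
        Nat.totient_prime_pow Nat.prime_two (by omega), Nat.succ_sub_one, Nat.mul_one] at h3
      obtain ⟨i, _, hi⟩ := (Nat.dvd_prime_pow Nat.prime_two).1 h3
      have h4 := stab_card_two (e := e)
      rw [hi] at h4 ⊢
      have h5 : i ≤ 2 := by
        by_contra hlt
        push Not at hlt
        have : 2 ^ 3 ≤ 2 ^ i := Nat.pow_le_pow_right (by norm_num) hlt
        omega
      exact pow_dvd_pow 2 h5
    · rintro k₁ k₂ ⟨a1, a2, a3, a4⟩ ⟨b1, b2, b3, b4⟩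
      have h3 := ratio_fail (n := 2 ^ (e + 5)) a1 a2 ((hcop _).1 a3) a4 b1 b2 ((hcop _).1 b3) b4
      have h4 : (U (2 ^ (e + 5)) k₂ * (U (2 ^ (e + 5)) k₁)⁻¹) ^
          Nat.card (HH (2 ^ (e + 5)) lam cm_lam) = 1 := by
        have h5 := pow_card_eq_one' (x := (⟨_, h3⟩ : HH (2 ^ (e + 5)) lam cm_lam))
        have h6 : (((⟨_, h3⟩ : HH (2 ^ (e + 5)) lam cm_lam) ^
            Nat.card (HH (2 ^ (e + 5)) lam cm_lam) : HH (2 ^ (e + 5)) lam cm_lam) :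
            (ZMod (2 ^ (e + 5)))ˣ) = 1 := by rw [h5]; rfl
        exact h6
      rw [mul_pow, inv_pow, mul_inv_eq_one] at h4
      have h7 := congrArg (Units.val) h4
      rw [Units.val_pow_eq_pow_val, Units.val_pow_eq_pow_val, coe_U ((hcop _).1 a3),
        coe_U ((hcop _).1 b3)] at h7
      rw [← ZMod.natCast_eq_natCast_iff]
      push_cast
      exact h7.symm
    · refine le_trans (le_of_eq ?_) (fail_le_card (n := 2 ^ (e + 5)))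
      congr 1
      ext k
      simp only [Set.mem_ofPred_eq]
      rw [hcop]

/-- all prime powers -/
theorem fail_all {p e : ℕ} (hp : p.Prime) :
    ∃ D : ℕ, D ∣ 4 * (p - 1) ∧ (p ≠ 2 → Odd D) ∧
      (D : ℝ) ≤ 3 * Real.sqrt ((p ^ (e + 1) : ℕ) : ℝ) ∧
      (∀ k₁ k₂ : ℕ, (1 ≤ k₁ ∧ k₁ < p ^ (e + 1) ∧ ¬ p ∣ k₁ ∧
          ¬ Mixed (p ^ (e + 1)) k₁ (p ^ (e + 1))) →
        (1 ≤ k₂ ∧ k₂ < p ^ (e + 1) ∧ ¬ p ∣ k₂ ∧ ¬ Mixed (p ^ (e + 1)) k₂ (p ^ (e + 1))) →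
        k₁ ^ D ≡ k₂ ^ D [MOD p ^ (e + 1)]) ∧
      {k : ℕ | 1 ≤ k ∧ k < p ^ (e + 1) ∧ ¬ p ∣ k ∧
        ¬ Mixed (p ^ (e + 1)) k (p ^ (e + 1))}.ncard ≤ D := by
  rcases eq_or_ne p 2 with rfl | h2
  · obtain ⟨D, h1, h2, h3⟩ := fail_two_struct e
    refine ⟨D, by simpa using h1, fun h => absurd rfl h, ?_, h2, h3⟩
    have h4 : D ≤ 4 := Nat.le_of_dvd (by norm_num) h1
    have h5 : (D : ℝ) ≤ 4 := by exact_mod_cast h4
    have h6 : (2 : ℝ) ≤ ((2 ^ (e + 1) : ℕ) : ℝ) := by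
      have : 2 ^ 1 ≤ 2 ^ (e + 1) := Nat.pow_le_pow_right (by norm_num) (by omega)
      exact_mod_cast this
    have h7 : (4 / 3 : ℝ) ≤ Real.sqrt ((2 ^ (e + 1) : ℕ) : ℝ) := by
      apply Real.le_sqrt_of_sq_le
      norm_num at h6 ⊢
      linarith
    linarith
  · obtain ⟨D, h1, h3, h4, h5, h6⟩ := fail_pp_struct (e := e) hp h2
    exact ⟨D, h3.mul_left 4, fun _ => h1, h4, h5, h6⟩

end Pool.Agent.Helper87.PA2
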