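import Mathlib

/-!
# Parity in the columns of the n-by-n array (MP_418075_nt): two exceptional primes

`lam m = (-1)^Omega(m)`.  A prime `n` is exceptional when on some column `j n + k`, `j < n`, the sign `lam`
is constant.  Two exceptional primes `n < n + h` force `lam x = lam (x+1)` for all small `x` outside two sets
of divisors.
-/

set_option autoImplicit false

open Finset

namespace Pool.Agent.Helper87.PA

/-- the Liouville sign -/
def lam (m : ℕ) : ℤ := (-1) ^ (ArithmeticFunction.cardFactors m)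

theorem lam_mul {a b : ℕ} (ha : a ≠ 0) (hb : b ≠ 0) : lam (a * b) = lam a * lam b := by
  unfold lam
  rw [ArithmeticFunction.cardFactors_mul ha hb, pow_add]

theorem lam_sq (m : ℕ) : lam m * lam m = 1 := by
  unfold lam
  rw [← mul_pow]
  simp

theorem lam_ne_zero (m : ℕ) : lam m ≠ 0 := by
  intro h
  have := lam_sq m
  rw [h] at this
  simp at this

theorem lam_cases (m : ℕ) : lam m = 1 ∨ lam m = -1 := by
  unfold lam
  exact neg_one_pow_eq_or ℤ _

/-- the class of `k` modulo `n` up to `n ^ 2` has constant sign -/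
def Const (n k : ℕ) (s : ℤ) : Prop :=
  ∀ m, 1 ≤ m → m ≤ n * n → m % n = k % n → lam m = s

theorem solve {n k a : ℕ} (hn : n.Prime) (hk1 : 1 ≤ k) (hkn : k < n) (ha1 : 1 ≤ a) (han : a < n) :
    ∃ z, 1 ≤ z ∧ z < n ∧ (a * z) % n = k := by
  have hcop : Nat.Coprime a n := by
    rw [Nat.coprime_comm]
    exact (Nat.Prime.coprime_iff_not_dvd hn).2 (Nat.not_dvd_of_pos_of_lt ha1 han)
  obtain ⟨z, hz1, hz2⟩ := Nat.exists_mul_mod_eq_of_coprime k hcop hn.pos.ne'
  rw [Nat.mod_eq_of_lt hkn] at hz2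
  refine ⟨z, ?_, hz1, hz2⟩
  rcases Nat.eq_zero_or_pos z with h | h
  · subst h
    simp at hz2
    omega
  · exact h

theorem solve_neg {n k a : ℕ} (hn : n.Prime) (hk1 : 1 ≤ k) (hkn : k < n) (ha1 : 1 ≤ a) (han : a < n) :
    ∃ t, 1 ≤ t ∧ t < n ∧ n ∣ a * t + k := by
  obtain ⟨t, ht1, ht2, ht3⟩ := solve (k := n - k) hn (by omega) (by omega) ha1 han
  refine ⟨t, ht1, ht2, ?_⟩
  have h1 := Nat.div_add_mod (a * t) n
  rw [ht3] at h1
  refine ⟨a * t / n + 1, ?_⟩
  have : n * (a * t / n + 1) = n * (a * t / n) + n := by ring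
  rw [this]
  omega

/-- step A -/
theorem stepA {n k : ℕ} {s : ℤ} (hn : n.Prime) (hk1 : 1 ≤ k) (hkn : k < n) (hc : Const n k s)
    {a : ℕ} (ha1 : 1 ≤ a) (han : a < n) :
    lam (a + n) = lam a ∨ ∃ b, 1 ≤ b ∧ b < a ∧ n ∣ a * b + k := by
  have hn0 : 0 < n := hn.pos
  obtain ⟨z, hz1, hzn, hz⟩ := solve hn hk1 hkn ha1 han
  have hk : k % n = k := Nat.mod_eq_of_lt hkn
  have h1 : lam (a * z) = s := by
    apply hc
    · exact Nat.mul_pos ha1 hz1
    · exact Nat.mul_le_mul han.le hzn.le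
    · rw [hz, hk]
  rw [lam_mul (by omega) (by omega)] at h1
  by_cases h2 : (a + n) * z ≤ n * n
  · left
    have h3 : lam ((a + n) * z) = s := by
      apply hc _ _ h2
      · rw [add_mul, Nat.add_mul_mod_self_left, hz, hk]
      · exact Nat.mul_pos (by omega) hz1
    rw [lam_mul (by omega) (by omega)] at h3
    rw [← h1] at h3
    exact mul_right_cancel₀ (lam_ne_zero z) h3
  · right
    push Not at h2
    have h3 : n < z + a := by
      by_contra h4
      push Not at h4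
      have h5 : z ≤ n - a := by omega
      have h6 : (a + n) * z ≤ (a + n) * (n - a) := Nat.mul_le_mul_left _ h5
      have h7 : (a + n) * (n - a) ≤ n * n := by
        zify [han.le]
        nlinarith
      omega
    refine ⟨n - z, by omega, by omega, ?_⟩
    have h8 := Nat.div_add_mod (a * z) n
    rw [hz] at h8
    -- a * (n - z) + k = a n - (a z - k) = a n - n q
    have h9 : a * (n - z) + a * z = a * n := by
      rw [← mul_add]
      congr 1
      omega
    have hq : n * (a * z / n) ≤ n * a := by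
      have : a * z ≤ n * a := by
        rw [mul_comm n a]
        exact Nat.mul_le_mul_left _ hzn.le
      omega
    refine ⟨a - a * z / n, ?_⟩
    have h10 : n * (a - a * z / n) = n * a - n * (a * z / n) := Nat.mul_sub n _ _
    rw [h10]
    have h11 : a * n = n * a := mul_comm _ _
    omega

/-- step B -/
theorem stepB {n k : ℕ} {s : ℤ} (hn : n.Prime) (hk1 : 1 ≤ k) (hkn : k < n) (hc : Const n k s)
    {h t x : ℕ} (hh1 : 1 ≤ h) (hx1 : 1 ≤ x) (hx2 : h * x * x ≤ n) (hxn : h * x < n)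
    (htn : t < n) (ht : n ∣ h * t + k) :
    lam (h * x + n) = lam (h * x) ∨ x ∣ t := by
  rcases stepA hn hk1 hkn hc (Nat.mul_pos hh1 hx1 : 1 ≤ h * x) hxn with h1 | ⟨b, hb1, hb2, hb3⟩
  · exact Or.inl h1
  · right
    have hhn : h < n := lt_of_le_of_lt (Nat.le_mul_of_pos_right h hx1) hxn
    have hxb : x * b < n := by
      calc x * b < x * (h * x) := Nat.mul_lt_mul_of_pos_left hb2 hx1
        _ = h * x * x := by ring
        _ ≤ n := hx2
    have h2 : (h * (x * b)) ≡ (h * t) [MOD n] := by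
      have h3 : (h * (x * b) + k) ≡ (h * t + k) [MOD n] := by
        have e1 : h * (x * b) + k = h * x * b + k := by ring
        rw [e1]
        exact ((Nat.modEq_zero_iff_dvd).2 hb3).trans ((Nat.modEq_zero_iff_dvd).2 ht).symm
      exact Nat.ModEq.add_right_cancel' k h3
    have hcop : Nat.gcd n h = 1 :=
      (Nat.Prime.coprime_iff_not_dvd hn).2 (Nat.not_dvd_of_pos_of_lt hh1 hhn)
    have h4 : (x * b) ≡ t [MOD n] := Nat.ModEq.cancel_left_of_coprime hcop h2
    have h5 : x * b = t := Nat.ModEq.eq_of_lt_of_lt h4 hxb htn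
    exact ⟨b, h5.symm⟩

/-- step C: two exceptional primes -/
theorem stepC {n h k k' : ℕ} {s s' : ℤ} (hn : n.Prime) (hn' : (n + h).Prime) (hh1 : 1 ≤ h)
    (hk1 : 1 ≤ k) (hkn : k < n) (hc : Const n k s)
    (hk1' : 1 ≤ k') (hkn' : k' < n + h) (hc' : Const (n + h) k' s') (hhn : h < n) :
    ∃ t t', 1 ≤ t ∧ t < n ∧ 1 ≤ t' ∧ t' < n + h ∧
      ∀ x, 1 ≤ x → h * (x + 1) * (x + 1) ≤ n → lam x ≠ lam (x + 1) → x ∣ t' ∨ (x + 1) ∣ t := by
  obtain ⟨t, ht1, ht2, ht3⟩ := solve_neg hn hk1 hkn hh1 hhn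
  obtain ⟨t', ht1', ht2', ht3'⟩ := solve_neg hn' hk1' hkn' hh1 (by omega : h < n + h)
  refine ⟨t, t', ht1, ht2, ht1', ht2', ?_⟩
  intro x hx1 hx2 hx3
  by_contra hcon
  push Not at hcon
  obtain ⟨hcon1, hcon2⟩ := hcon
  have e1 : h * (x + 1) < n := by
    have : h * (x + 1) * 2 ≤ h * (x + 1) * (x + 1) := Nat.mul_le_mul_left _ (by omega)
    have h0 : 0 < h * (x + 1) := Nat.mul_pos hh1 (by omega)
    omega
  have e2 : h * x ≤ h * (x + 1) := Nat.mul_le_mul_left _ (by omega)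
  have e3 : h * x * x ≤ n + h := by
    have : h * x * x ≤ h * (x + 1) * (x + 1) := Nat.mul_le_mul e2 (by omega)
    omega
  have h1 : lam (h * x + (n + h)) = lam (h * x) := by
    rcases stepB hn' hk1' hkn' hc' hh1 hx1 e3 (by omega) ht2' ht3' with h1 | h1
    · exact h1
    · exact absurd h1 hcon1
  have h2 : lam (h * (x + 1) + n) = lam (h * (x + 1)) := by
    rcases stepB hn hk1 hkn hc hh1 (by omega : 1 ≤ x + 1) hx2 e1 ht2 ht3 with h1 | h1
    · exact h1
    · exact absurd h1 hcon2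
  have e4 : h * x + (n + h) = h * (x + 1) + n := by ring
  rw [e4, h2, lam_mul (by omega) (by omega), lam_mul (by omega) (by omega)] at h1
  exact hx3 (mul_left_cancel₀ (lam_ne_zero h) h1).symm


theorem lam_const_of_no_change {a : ℕ} : ∀ d, (∀ x, a ≤ x → x < a + d → lam x = lam (x + 1)) →
    lam a = lam (a + d) := by
  intro d
  induction d with
  | zero => intro _; rfl
  | succ d ih =>
    intro hd
    have h1 := ih (fun x hx1 hx2 => hd x hx1 (by omega))
    have h2 := hd (a + d) (by omega) (by omega)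
    rw [h1, h2]
    rfl

theorem lam_two_sq {w : ℕ} (hw : 1 ≤ w) : lam (2 * w * w) = -1 := by
  rw [lam_mul (by omega) (by omega), lam_mul (by omega) (by omega), mul_assoc, lam_sq]
  unfold lam
  rw [ArithmeticFunction.cardFactors_apply_prime Nat.prime_two]
  norm_num

theorem lam_square {m : ℕ} (hm : 1 ≤ m) : lam (m * m) = 1 := by
  rw [lam_mul (by omega) (by omega), lam_sq]

/-- step D, one sign change -/
theorem exists_change {w : ℕ} (hw : 1 ≤ w) :
    ∃ x, 2 * w * w ≤ x ∧ x + 1 ≤ 2 * (w + 1) * (w + 1) ∧ lam x ≠ lam (x + 1) := by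
  have h1 : Nat.sqrt (2 * w * w) * Nat.sqrt (2 * w * w) ≤ 2 * w * w := Nat.sqrt_le _
  have h2 : 2 * w * w < (Nat.sqrt (2 * w * w) + 1) * (Nat.sqrt (2 * w * w) + 1) := Nat.lt_succ_sqrt _
  obtain ⟨m, hm⟩ : ∃ m, m = Nat.sqrt (2 * w * w) := ⟨_, rfl⟩
  rw [← hm] at h1 h2
  have h3 : (m + 1) * (m + 1) ≤ 2 * (w + 1) * (w + 1) := by
    have h4 : m < 2 * w := by
      by_contra h5
      push Not at h5
      have h6 : 2 * w * (2 * w) ≤ m * m := Nat.mul_le_mul h5 h5
      have h7 : 2 * w * (2 * w) = 2 * (2 * w * w) := by ring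
      have h8 : 0 < 2 * w * w := Nat.mul_pos (by omega) (by omega)
      omega
    nlinarith
  by_contra hcon
  push Not at hcon
  obtain ⟨d, hd⟩ : ∃ d, (m + 1) * (m + 1) = 2 * w * w + d := ⟨(m + 1) * (m + 1) - 2 * w * w, by omega⟩
  have h9 : lam (2 * w * w) = lam (2 * w * w + d) :=
    lam_const_of_no_change d (fun x hx1 hx2 => hcon x hx1 (by omega))
  rw [← hd, lam_two_sq hw, lam_square (by omega)] at h9
  norm_num at h9

/-- step D: at least `W - 1` sign changes below `2 W^2` -/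
theorem card_changes (W : ℕ) :
    W ≤ ((Icc 1 (2 * W * W - 1)).filter (fun x => lam x ≠ lam (x + 1))).card + 1 := by
  classical
  have h1 : ∀ w : ℕ, ∃ x, 1 ≤ w → 2 * w * w ≤ x ∧ x + 1 ≤ 2 * (w + 1) * (w + 1) ∧
      lam x ≠ lam (x + 1) := by
    intro w
    by_cases hw : 1 ≤ w
    · obtain ⟨x, hx⟩ := exists_change hw
      exact ⟨x, fun _ => hx⟩
    · exact ⟨0, fun h => absurd h hw⟩
  choose f hf using h1
  have h2 : ((Icc 1 (W - 1)).image f) ⊆
      (Icc 1 (2 * W * W - 1)).filter (fun x => lam x ≠ lam (x + 1)) := by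
    intro x hx
    rw [mem_image] at hx
    obtain ⟨w, hw, rfl⟩ := hx
    rw [mem_Icc] at hw
    obtain ⟨a1, a2, a3⟩ := hf w hw.1
    rw [mem_filter, mem_Icc]
    have h3 : 0 < 2 * w * w := Nat.mul_pos (by omega) (by omega)
    have h4 : 2 * (w + 1) * (w + 1) ≤ 2 * W * W :=
      Nat.mul_le_mul (Nat.mul_le_mul_left 2 (by omega)) (by omega)
    exact ⟨⟨by omega, by omega⟩, a3⟩
  have h3 : Set.InjOn f (Icc 1 (W - 1) : Finset ℕ) := by
    have key : ∀ u v, 1 ≤ u → u < v → f u ≠ f v := by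
      intro u v hu huv he
      obtain ⟨a1, a2, a3⟩ := hf u hu
      obtain ⟨b1, b2, b3⟩ := hf v (by omega)
      have h4 : 2 * (u + 1) * (u + 1) ≤ 2 * v * v :=
        Nat.mul_le_mul (Nat.mul_le_mul_left 2 (by omega)) (by omega)
      omega
    intro u hu v hv he
    rw [coe_Icc, Set.mem_Icc] at hu hv
    rcases lt_trichotomy u v with h | h | h
    · exact absurd he (key u v hu.1 h)
    · exact h
    · exact absurd he.symm (key v u hv.1 h)
  have h4 := card_le_card h2
  rw [card_image_of_injOn h3, Nat.card_Icc] at h4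
  omega

/-- steps C, D, E together: two exceptional primes `n < n + h` with `4 h W^4 ≤ n` -/
theorem pair_bound {n h k k' : ℕ} {s s' : ℤ} (hn : n.Prime) (hn' : (n + h).Prime) (hh1 : 1 ≤ h)
    (hk1 : 1 ≤ k) (hkn : k < n) (hc : Const n k s)
    (hk1' : 1 ≤ k') (hkn' : k' < n + h) (hc' : Const (n + h) k' s')
    {W : ℕ} (hW : 1 ≤ W) (hW4 : 4 * h * W ^ 4 ≤ n) :
    ∃ t t', 1 ≤ t ∧ t < n ∧ 1 ≤ t' ∧ t' < n + h ∧
      W ≤ t.divisors.card + t'.divisors.card + 1 := by
  classical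
  have hhn : h < n := by
    have h1 : 1 ≤ W ^ 4 := Nat.one_le_pow _ _ hW
    have h2 : 4 * h * 1 ≤ 4 * h * W ^ 4 := Nat.mul_le_mul_left _ h1
    omega
  obtain ⟨t, t', ht1, ht2, ht1', ht2', hx⟩ := stepC hn hn' hh1 hk1 hkn hc hk1' hkn' hc' hhn
  refine ⟨t, t', ht1, ht2, ht1', ht2', ?_⟩
  have h1 := card_changes W
  have h2 : (Icc 1 (2 * W * W - 1)).filter (fun x => lam x ≠ lam (x + 1)) ⊆
      t'.divisors ∪ (t.divisors).image (fun y => y - 1) := by
    intro x hxm
    rw [mem_filter, mem_Icc] at hxm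
    obtain ⟨⟨a1, a2⟩, a3⟩ := hxm
    have h3 : x + 1 ≤ 2 * W * W := by omega
    have h4 : h * (x + 1) * (x + 1) ≤ n := by
      calc h * (x + 1) * (x + 1) ≤ h * (2 * W * W) * (2 * W * W) :=
            Nat.mul_le_mul (Nat.mul_le_mul_left h h3) h3
        _ = 4 * h * W ^ 4 := by ring
        _ ≤ n := hW4
    rw [mem_union]
    rcases hx x a1 h4 a3 with h5 | h5
    · left
      rw [Nat.mem_divisors]
      exact ⟨h5, by omega⟩
    · right
      rw [mem_image]
      exact ⟨x + 1, by rw [Nat.mem_divisors]; exact ⟨h5, by omega⟩, by omega⟩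
  have h3 := (card_le_card h2).trans (card_union_le _ _)
  have h4 : ((t.divisors).image (fun y => y - 1)).card ≤ t.divisors.card := card_image_le
  omega

end Pool.Agent.Helper87.PA
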