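import Mathlib

/-!
# A multiplicative coset inside one half of the residues has at most `3 sqrt n` elements
-/

set_option autoImplicit false

open Finset

namespace Pool.Agent.Helper87.PA

variable {n : ℕ} [hn : Fact n.Prime]

/-- exponential sum over a finite set of units -/
noncomputable def S (T : Finset (ZMod n)ˣ) (a : ZMod n) : ℂ :=
  ∑ t ∈ T, ZMod.stdAddChar (a * (t : ZMod n))

theorem sum_norm_sq (T : Finset (ZMod n)ˣ) :
    ∑ a : ZMod n, (S T a) * (starRingEnd ℂ) (S T a) = (n : ℂ) * T.card := by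
  have h1 : ∀ a : ZMod n, (S T a) * (starRingEnd ℂ) (S T a) =
      ∑ t ∈ T, ∑ u ∈ T, ZMod.stdAddChar (a * ((t : ZMod n) - (u : ZMod n))) := by
    intro a
    unfold S
    rw [map_sum, Finset.sum_mul_sum]
    refine Finset.sum_congr rfl fun t _ => Finset.sum_congr rfl fun u _ => ?_
    rw [← AddChar.map_neg_eq_conj, ← AddChar.map_add_eq_mul]
    congr 1
    ring
  simp_rw [h1]
  rw [Finset.sum_comm]
  have h2 : ∀ t ∈ T, ∑ a : ZMod n, ∑ u ∈ T, ZMod.stdAddChar (a * ((t : ZMod n) - (u : ZMod n))) = (n : ℂ) := by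
    intro t ht
    rw [Finset.sum_comm]
    have h3 : ∀ u ∈ T, ∑ a : ZMod n, ZMod.stdAddChar (a * ((t : ZMod n) - (u : ZMod n))) =
        if u = t then (n : ℂ) else 0 := by
      intro u _
      rw [AddChar.sum_mulShift _ (ZMod.isPrimitive_stdAddChar n), ZMod.card]
      by_cases h : u = t
      · subst h
        simp
      · have : ((t : ZMod n) - (u : ZMod n)) ≠ 0 := by
          intro h0
          apply h
          rw [sub_eq_zero] at h0
          exact (Units.ext h0).symm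
        simp [h, this]
    rw [Finset.sum_congr rfl h3, Finset.sum_ite_eq' T t]
    simp [ht]
  rw [Finset.sum_congr rfl h2]
  simp [mul_comm]

theorem norm_sq_le (T : Finset (ZMod n)ˣ) (hT : ∀ t ∈ T, ∀ u ∈ T, t * u ∈ T) (hne : T.Nonempty)
    (a : ZMod n) (ha : a ≠ 0) : ‖S T a‖ ^ 2 ≤ n := by
  have h1 : ∑ b : ZMod n, ‖S T b‖ ^ 2 = (n : ℝ) * T.card := by
    have h2 := sum_norm_sq T
    have h3 : ∀ b : ZMod n, (S T b) * (starRingEnd ℂ) (S T b) = ((‖S T b‖ ^ 2 : ℝ) : ℂ) := by
      intro b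
      rw [Complex.mul_conj, Complex.normSq_eq_norm_sq]
    simp_rw [h3] at h2
    exact_mod_cast h2
  have h4 : ∀ u ∈ T, S T (a * (u : ZMod n)) = S T a := by
    intro u hu
    unfold S
    have h5 : T.image (fun t => u * t) = T := by
      apply Finset.eq_of_subset_of_card_le
      · intro y hy
        rw [mem_image] at hy
        obtain ⟨t, ht, rfl⟩ := hy
        exact hT u hu t ht
      · rw [Finset.card_image_of_injective _ (mul_right_injective u)]
    conv_rhs => rw [← h5]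
    rw [Finset.sum_image (fun x _ y _ h => mul_left_cancel h)]
    refine Finset.sum_congr rfl fun t _ => ?_
    rw [Units.val_mul, mul_assoc]
  have h6 : ∑ u ∈ T, ‖S T (a * (u : ZMod n))‖ ^ 2 ≤ ∑ b : ZMod n, ‖S T b‖ ^ 2 := by
    have h7 : ∑ u ∈ T, ‖S T (a * (u : ZMod n))‖ ^ 2 =
        ∑ b ∈ T.image (fun u : (ZMod n)ˣ => a * (u : ZMod n)), ‖S T b‖ ^ 2 := by
      rw [Finset.sum_image]
      intro x _ y _ h
      exact Units.ext (mul_left_cancel₀ ha h)
    rw [h7]
    exact Finset.sum_le_sum_of_subset_of_nonneg (Finset.subset_univ _) (fun _ _ _ => by positivity)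
  rw [h1, Finset.sum_congr rfl (fun u hu => by rw [h4 u hu]), Finset.sum_const, nsmul_eq_mul,
    mul_comm] at h6
  have h8 : (0 : ℝ) < T.card := by exact_mod_cast hne.card_pos
  exact le_of_mul_le_mul_right h6 h8

theorem char_val (a : ZMod n) : (ZMod.stdAddChar a : ℂ) =
    Complex.exp (((2 * Real.pi * (a.val : ℝ) / n : ℝ) : ℂ) * Complex.I) := by
  have h : ((a.val : ℤ) : ZMod n) = a := by
    push_cast
    exact ZMod.natCast_zmod_val a
  conv_lhs => rw [← h]
  rw [ZMod.stdAddChar_coe]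
  congr 1
  push_cast
  ring

/-- a coset of a multiplicative subgroup inside the upper half -/
theorem half_bound (hn2 : n ≠ 2) (T : Finset (ZMod n)ˣ) (hT : ∀ t ∈ T, ∀ u ∈ T, t * u ∈ T)
    (x : (ZMod n)ˣ) (hx : ∀ t ∈ T, n < 2 * ((x : ZMod n) * (t : ZMod n)).val) :
    (T.card : ℝ) ≤ 3 * Real.sqrt n := by
  rcases T.eq_empty_or_nonempty with hne | hne
  · rw [hne]
    simp
  have hn0 : (0 : ℝ) < n := by exact_mod_cast hn.out.pos
  have h2x : (2 * (x : ZMod n)) ≠ 0 := by
    apply mul_ne_zero _ x.ne_zero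
    intro h
    have h3 : ((2 : ℕ) : ZMod n) = 0 := by exact_mod_cast h
    rw [ZMod.natCast_eq_zero_iff] at h3
    exact hn2 ((Nat.prime_dvd_prime_iff_eq hn.out Nat.prime_two).1 h3)
  have b1 : ‖S T (x : ZMod n)‖ ≤ Real.sqrt n := by
    apply Real.le_sqrt_of_sq_le
    exact norm_sq_le T hT hne _ x.ne_zero
  have b2 : ‖S T (2 * (x : ZMod n))‖ ≤ Real.sqrt n := by
    apply Real.le_sqrt_of_sq_le
    exact norm_sq_le T hT hne _ h2x
  obtain ⟨θ, hθ⟩ : ∃ θ : (ZMod n)ˣ → ℝ, ∀ t, θ t = 2 * Real.pi * (((x : ZMod n) * (t : ZMod n)).val : ℝ) / n :=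
    ⟨_, fun _ => rfl⟩
  have e1 : ∀ t : (ZMod n)ˣ, (ZMod.stdAddChar ((x : ZMod n) * (t : ZMod n)) : ℂ) =
      Complex.exp ((θ t : ℂ) * Complex.I) := by
    intro t
    rw [char_val, hθ]
  have e2 : ∀ t : (ZMod n)ˣ, (ZMod.stdAddChar ((2 * (x : ZMod n)) * (t : ZMod n)) : ℂ) =
      Complex.exp (((2 * θ t : ℝ) : ℂ) * Complex.I) := by
    intro t
    have : (2 * (x : ZMod n)) * (t : ZMod n) = (x : ZMod n) * (t : ZMod n) + (x : ZMod n) * (t : ZMod n) := by ring
    rw [this, AddChar.map_add_eq_mul, e1, ← Complex.exp_add]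
    congr 1
    push_cast
    ring
  have i1 : (S T (x : ZMod n)).im = ∑ t ∈ T, Real.sin (θ t) := by
    unfold S
    rw [Complex.im_sum]
    refine Finset.sum_congr rfl fun t _ => ?_
    rw [e1, Complex.exp_ofReal_mul_I_im]
  have i2 : (S T (2 * (x : ZMod n))).re = ∑ t ∈ T, Real.cos (2 * θ t) := by
    unfold S
    rw [Complex.re_sum]
    refine Finset.sum_congr rfl fun t _ => ?_
    rw [e2, Complex.exp_ofReal_mul_I_re]
  have s1 : ∀ t ∈ T, (1 - Real.cos (2 * θ t)) / 2 ≤ - Real.sin (θ t) := by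
    intro t ht
    have h3 : Real.pi < θ t := by
      rw [hθ, lt_div_iff₀ hn0]
      have h4 : (n : ℝ) < 2 * (((x : ZMod n) * (t : ZMod n)).val : ℝ) := by exact_mod_cast hx t ht
      have := Real.pi_pos
      nlinarith
    have h5 : θ t < 2 * Real.pi := by
      rw [hθ, div_lt_iff₀ hn0]
      have h4 : (((x : ZMod n) * (t : ZMod n)).val : ℝ) < n := by exact_mod_cast ZMod.val_lt _
      have := Real.pi_pos
      nlinarith
    have h6 : Real.sin (θ t) ≤ 0 := by
      have h7 : Real.sin (θ t) = - Real.sin (θ t - Real.pi) := by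
        rw [Real.sin_sub_pi]; ring
      rw [h7]
      have := Real.sin_nonneg_of_nonneg_of_le_pi (x := θ t - Real.pi) (by linarith) (by linarith)
      linarith
    have h8 := Real.neg_one_le_sin (θ t)
    have h9 := Real.cos_two_mul (θ t)
    have h10 := Real.sin_sq_add_cos_sq (θ t)
    nlinarith
  have h3 := Finset.sum_le_sum s1
  rw [Finset.sum_neg_distrib, ← i1, ← Finset.sum_div, Finset.sum_sub_distrib, ← i2] at h3
  simp only [Finset.sum_const, nsmul_eq_mul, mul_one] at h3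
  have h4 : -(S T (x : ZMod n)).im ≤ Real.sqrt n :=
    ((neg_le_abs _).trans (Complex.abs_im_le_norm _)).trans b1
  have h5 : (S T (2 * (x : ZMod n))).re ≤ Real.sqrt n :=
    ((le_abs_self _).trans (Complex.abs_re_le_norm _)).trans b2
  linarith

end Pool.Agent.Helper87.PA
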