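import Mathlib
import Pool.Agent.Helper68.CO2.Arith
import Pool.Agent.Helper87.PA.Comb
import Pool.Agent.Helper87.PA.Half

/-!
# At most `3 sqrt n` exceptional columns (prime `n`, exact window)
-/

set_option autoImplicit false

open Finset

namespace Pool.Agent.Helper87.PA

variable {n : ℕ} [hn : Fact n.Prime]

/-- sign of the least positive residue -/
def F (u : (ZMod n)ˣ) : ℤ := lam (u : ZMod n).val

theorem val_pos (u : (ZMod n)ˣ) : 0 < (u : ZMod n).val := by
  rw [Nat.pos_iff_ne_zero, Ne, ZMod.val_eq_zero]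
  exact u.ne_zero

theorem val_lt' (u : (ZMod n)ˣ) : (u : ZMod n).val < n := ZMod.val_lt _

theorem F_sq (u : (ZMod n)ˣ) : F u * F u = 1 := lam_sq _

theorem F_ne (u : (ZMod n)ˣ) : F u ≠ 0 := lam_ne_zero _

/-- the unit of a number -/
noncomputable def U (n : ℕ) [Fact n.Prime] (d : ℕ) : (ZMod n)ˣ :=
  if h : Nat.Coprime d n then ZMod.unitOfCoprime d h else 1

theorem cop {d : ℕ} (h0 : 0 < d) (h1 : d < n) : Nat.Coprime d n := by
  rw [Nat.coprime_comm]
  exact (Nat.Prime.coprime_iff_not_dvd hn.out).2 (Nat.not_dvd_of_pos_of_lt h0 h1)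

theorem coe_U {d : ℕ} (h0 : 0 < d) (h1 : d < n) : ((U n d : (ZMod n)ˣ) : ZMod n) = (d : ZMod n) := by
  unfold U
  rw [dif_pos (cop h0 h1), ZMod.coe_unitOfCoprime]

theorem val_U {d : ℕ} (h0 : 0 < d) (h1 : d < n) : ((U n d : (ZMod n)ˣ) : ZMod n).val = d := by
  rw [coe_U h0 h1, ZMod.val_cast_of_lt h1]

theorem U_val (u : (ZMod n)ˣ) : U n (u : ZMod n).val = u := by
  apply Units.ext
  rw [coe_U (val_pos u) (val_lt' u), ZMod.natCast_zmod_val]

theorem F_U {d : ℕ} (h0 : 0 < d) (h1 : d < n) : F (U n d) = lam d := by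
  unfold F
  rw [val_U h0 h1]

theorem val_mul_small (u v : (ZMod n)ˣ) (h : (u : ZMod n).val * (v : ZMod n).val < n) :
    ((u * v : (ZMod n)ˣ) : ZMod n).val = (u : ZMod n).val * (v : ZMod n).val := by
  rw [Units.val_mul, ZMod.val_mul, Nat.mod_eq_of_lt h]

theorem F_mul_small (u v : (ZMod n)ˣ) (h : (u : ZMod n).val * (v : ZMod n).val < n) :
    F (u * v) = F u * F v := by
  unfold F
  rw [val_mul_small u v h]
  exact lam_mul (val_pos u).ne' (val_pos v).ne'

theorem val_neg (u : (ZMod n)ˣ) : ((-u : (ZMod n)ˣ) : ZMod n).val = n - (u : ZMod n).val := by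
  rw [Units.val_neg, ZMod.neg_val, if_neg u.ne_zero]

/-- good units -/
def Good (g : (ZMod n)ˣ) : Prop := ∀ u, F (g * u) = F g * F u

theorem Good.mul {g h : (ZMod n)ˣ} (hg : Good g) (hh : Good h) : Good (g * h) := by
  intro u
  rw [mul_assoc, hg, hh, hg, mul_assoc]

theorem Good.pow {g : (ZMod n)ˣ} (hg : Good g) : ∀ m : ℕ, F (g ^ m) = F g ^ m ∧ Good (g ^ m) := by
  have h1 : F (1 : (ZMod n)ˣ) = 1 := by
    unfold F
    have : ((1 : (ZMod n)ˣ) : ZMod n).val = 1 := by
      rw [Units.val_one, ZMod.val_one'' hn.out.one_lt.ne']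
    rw [this]
    simp [lam]
  intro m
  induction m with
  | zero =>
    rw [pow_zero, pow_zero]
    refine ⟨h1, ?_⟩
    intro u
    rw [one_mul, h1, one_mul]
  | succ m ih =>
    rw [pow_succ', pow_succ']
    exact ⟨by rw [hg, ih.1], hg.mul ih.2⟩

theorem lam_two : lam 2 = -1 := by
  unfold lam
  rw [ArithmeticFunction.cardFactors_apply_prime Nat.prime_two]
  norm_num

/-- `2` good implies `-1` good -/
theorem neg_one_good (h3 : 2 < n) (h : Good (U n 2)) : Good (-1 : (ZMod n)ˣ) := by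
  obtain ⟨m, hm⟩ : ∃ m, m = orderOf (U n 2) := ⟨_, rfl⟩
  have h1 : (U n 2) ^ m = 1 := by rw [hm]; exact pow_orderOf_eq_one _
  have hmpos : 0 < m := by rw [hm]; exact orderOf_pos _
  have h2 := (h.pow m).1
  have h0 := (h.pow 0).1
  rw [pow_zero, pow_zero] at h0
  rw [h1, h0, F_U (by norm_num) h3, lam_two] at h2
  have heven : Even m := by
    by_contra hodd
    rw [Nat.not_even_iff_odd] at hodd
    rw [hodd.neg_one_pow] at h2
    norm_num at h2
  obtain ⟨l, hl⟩ := heven
  have h4 : (U n 2) ^ l * (U n 2) ^ l = 1 := by rw [← pow_add, ← hl, h1]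
  have h5 : (U n 2) ^ l ≠ 1 := by
    intro h6
    have h7 : orderOf (U n 2) ≤ l := orderOf_le_of_pow_eq_one (by omega) h6
    omega
  have h8 : (U n 2) ^ l = -1 := by
    have h9 : (((U n 2) ^ l : (ZMod n)ˣ) : ZMod n) * (((U n 2) ^ l : (ZMod n)ˣ) : ZMod n) = 1 := by
      rw [← Units.val_mul, h4, Units.val_one]
    rcases mul_self_eq_one_iff.1 h9 with h10 | h10
    · exact absurd (Units.ext h10) h5
    · apply Units.ext
      rw [h10, Units.val_neg, Units.val_one]
  rw [← h8]
  exact (h.pow l).2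

/-- `2` good implies all good -/
theorem all_good (h3 : 2 < n) (h2 : Good (U n 2)) : ∀ d, 0 < d → d < n → Good (U n d) := by
  have hneg := neg_one_good h3 h2
  intro d
  induction d using Nat.strong_induction_on with
  | _ d ih =>
    intro hd0 hdn
    by_contra hbad
    unfold Good at hbad
    push Not at hbad
    obtain ⟨u, hu⟩ := hbad
    -- closure of the bad set
    have hcl : ∀ g : (ZMod n)ˣ, Good g → ∀ v, F (U n d * v) ≠ F (U n d) * F v →
        F (U n d * (g * v)) ≠ F (U n d) * F (g * v) := by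
      intro g hg v hv he
      apply hv
      rw [mul_left_comm, hg, hg, mul_left_comm] at he
      exact mul_left_cancel₀ (F_ne g) he
    have hd2 : 2 ≤ d := by
      by_contra hlt
      have hd1 : d = 1 := by omega
      apply hu
      rw [hd1]
      have hU1 : U n 1 = 1 := by
        apply Units.ext
        rw [coe_U (by norm_num) hn.out.one_lt]
        simp
      have h0 := (h2.pow 0).1
      rw [pow_zero, pow_zero] at h0
      rw [hU1, one_mul, h0, one_mul]
    -- Dirichlet
    obtain ⟨j, k, hk0, hkd, hjk⟩ := Real.exists_int_int_abs_mul_sub_le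
      (((u : ZMod n).val : ℝ) / n) (n := d - 1) (by omega)
    obtain ⟨K, rfl⟩ : ∃ K : ℕ, k = K := ⟨k.toNat, by omega⟩
    have hn0 : (0 : ℝ) < n := by exact_mod_cast hn.out.pos
    have hK0 : 0 < K := by exact_mod_cast hk0
    have hKd : K < d := by
      have : (K : ℤ) ≤ ((d - 1 : ℕ) : ℤ) := hkd
      omega
    -- r
    obtain ⟨R, hR⟩ : ∃ R : ℤ, R = (K : ℤ) * (u : ZMod n).val - j * n := ⟨_, rfl⟩
    have hRd : |R| * d ≤ n := by
      have h5 : |(R : ℝ)| * d ≤ n := by
        have h6 : (R : ℝ) = ((K : ℝ) * (((u : ZMod n).val : ℝ) / n) - j) * n := by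
          rw [hR]
          push_cast
          field_simp
        have h7 : (((d - 1 : ℕ) : ℝ) + 1) = d := by
          rw [Nat.cast_sub (by omega)]
          simp
        have hjk' : |(K : ℝ) * (((u : ZMod n).val : ℝ) / n) - j| ≤ 1 / d := by
          rw [← h7]
          exact_mod_cast hjk
        rw [h6, abs_mul, abs_of_pos hn0]
        have hd0' : (0 : ℝ) < d := by exact_mod_cast hd0
        calc |(K : ℝ) * (((u : ZMod n).val : ℝ) / n) - j| * n * d
            ≤ (1 / d) * n * d := by gcongr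
          _ = n := by field_simp
      have h8 : ((|R| * d : ℤ) : ℝ) ≤ ((n : ℤ) : ℝ) := by
        push_cast
        exact h5
      exact_mod_cast h8
    have hgoodK := ih K hKd hK0 (by omega)
    have hv := hcl _ hgoodK u hu
    have hRmod : ((R : ℤ) : ZMod n) = ((U n K * u : (ZMod n)ˣ) : ZMod n) := by
      rw [hR, Units.val_mul, coe_U hK0 (by omega)]
      push_cast
      simp
    have hR0 : R ≠ 0 := by
      intro h0
      rw [h0] at hRmod
      push_cast at hRmod
      exact (U n K * u).ne_zero hRmod.symm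
    obtain ⟨r, hr⟩ : ∃ r : ℕ, r = R.natAbs := ⟨_, rfl⟩
    have hr0 : 0 < r := by rw [hr]; exact Int.natAbs_pos.2 hR0
    have hrd : r * d ≤ n := by
      rw [hr]
      have h9 : ((R.natAbs : ℕ) : ℤ) = |R| := Int.natCast_natAbs R
      have : ((R.natAbs * d : ℕ) : ℤ) ≤ (n : ℤ) := by
        push_cast
        exact hRd
      exact_mod_cast this
    have hrd' : r * d < n := by
      rcases Nat.lt_or_ge (r * d) n with h | h
      · exact h
      · exfalso
        have h10 : r * d = n := le_antisymm hrd h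
        have h11 : d ∣ n := ⟨r, by rw [← h10, mul_comm]⟩
        rcases (Nat.dvd_prime hn.out).1 h11 with h12 | h12
        · omega
        · omega
    have hrn : r < n := by nlinarith
    have hw : F (U n d * U n r) ≠ F (U n d) * F (U n r) := by
      rcases Int.natAbs_eq R with h | h
      · have h12 : U n r = U n K * u := by
          apply Units.ext
          rw [coe_U hr0 hrn, ← hRmod, h, ← hr]
          push_cast
          rfl
        rw [h12]
        exact hv
      · have h12 : U n r = (-1) * (U n K * u) := by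
          apply Units.ext
          rw [coe_U hr0 hrn, Units.val_mul, ← hRmod, h, ← hr]
          push_cast
          simp
        rw [h12]
        exact hcl _ hneg _ hv
    apply hw
    apply F_mul_small
    rw [val_U hd0 hdn, val_U hr0 hrn, mul_comm]
    exact hrd'

/-- contradiction when `2` is good -/
theorem two_not_good (h7 : 7 ≤ n) : ¬ Good (U n 2) := by
  intro h2
  have hall := all_good (by omega) h2
  obtain ⟨q, hq, hqn, z, hz⟩ := Pool.Agent.Helper68.CO2.exists_residue (p := n) h7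
  have hz0 : z ≠ 0 := by
    intro h
    rw [h, mul_zero] at hz
    rw [ZMod.natCast_eq_zero_iff] at hz
    exact Nat.not_dvd_of_pos_of_lt hq.pos hqn hz
  obtain ⟨Z, rfl⟩ : ∃ Z : (ZMod n)ˣ, (Z : ZMod n) = z := ⟨Units.mk0 z hz0, rfl⟩
  have h1 : U n q = Z * Z := by
    apply Units.ext
    rw [coe_U hq.pos hqn, Units.val_mul, hz]
  have h3 : Good Z := by
    rw [← U_val Z]
    exact hall _ (val_pos Z) (val_lt' Z)
  have h4 : F (U n q) = 1 := by rw [h1, h3, F_sq]
  rw [F_U hq.pos hqn] at h4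
  unfold lam at h4
  rw [ArithmeticFunction.cardFactors_apply_prime hq] at h4
  norm_num at h4

/-- the subgroup of quasi-periods -/
def Q (n : ℕ) [Fact n.Prime] : Subgroup (ZMod n)ˣ where
  carrier := {h | ∃ σ : ℤ, σ * σ = 1 ∧ ∀ u : (ZMod n)ˣ, F (h * u) = σ * F u}
  one_mem' := ⟨1, by norm_num, fun u => by rw [one_mul, one_mul]⟩
  mul_mem' := by
    rintro a b ⟨σ, hσ, ha⟩ ⟨τ, hτ, hb⟩
    refine ⟨σ * τ, by rw [mul_mul_mul_comm, hσ, hτ, one_mul], fun u => ?_⟩
    rw [mul_assoc, ha, hb, mul_assoc]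
  inv_mem' := by
    rintro a ⟨σ, hσ, ha⟩
    refine ⟨σ, hσ, fun u => ?_⟩
    have h1 := ha (a⁻¹ * u)
    rw [mul_inv_cancel_left] at h1
    rw [h1, ← mul_assoc, hσ, one_mul]

theorem card_Q_le (h7 : 7 ≤ n) : (Nat.card (Q n) : ℝ) ≤ 3 * Real.sqrt n := by
  classical
  -- a unit where 2 fails
  have h1 := two_not_good (n := n) h7
  unfold Good at h1
  push Not at h1
  obtain ⟨x, hx⟩ := h1
  have hupper : ∀ v : (ZMod n)ˣ, F (U n 2 * v) ≠ F (U n 2) * F v → n < 2 * (v : ZMod n).val := by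
    intro v hv
    by_contra hle
    push Not at hle
    apply hv
    apply F_mul_small
    rw [val_U (by norm_num) (by omega)]
    rcases Nat.lt_or_ge (2 * (v : ZMod n).val) n with h | h
    · exact h
    · exfalso
      have h2 : 2 * (v : ZMod n).val = n := le_antisymm hle h
      have h3 : 2 ∣ n := ⟨_, h2.symm⟩
      rcases (Nat.dvd_prime hn.out).1 h3 with h4 | h4 <;> omega
  have hclosed : ∀ h ∈ Q n, F (U n 2 * (x * h)) ≠ F (U n 2) * F (x * h) := by
    rintro h ⟨σ, hσ, hh⟩ he
    apply hx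
    have h2 : U n 2 * (x * h) = h * (U n 2 * x) := by
      rw [mul_comm x h, mul_left_comm]
    rw [h2, hh, mul_comm x h, hh, mul_left_comm] at he
    have hσ0 : σ ≠ 0 := by
      intro h0
      rw [h0] at hσ
      norm_num at hσ
    exact mul_left_cancel₀ hσ0 he
  have h2 := half_bound (n := n) (by omega) (univ.filter (fun h => h ∈ Q n))
    (by
      intro t ht u hu
      rw [mem_filter] at ht hu ⊢
      exact ⟨mem_univ _, (Q n).mul_mem ht.2 hu.2⟩)
    x
    (by
      intro t ht
      rw [mem_filter] at ht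
      have := hupper _ (hclosed t ht.2)
      rw [Units.val_mul] at this
      exact this)
  have h3 : Nat.card (Q n) = (univ.filter (fun h => h ∈ Q n)).card := by
    rw [Nat.card_eq_fintype_card, Fintype.card_subtype]
  rw [h3]
  exact h2

/-- a column of constant sign -/
theorem col_rel {k : ℕ} {s : ℤ} (hk1 : 1 ≤ k) (hkn : k < n) (hc : Const n k s) (u : (ZMod n)ˣ) :
    F (U n k * u⁻¹) * F u = s := by
  unfold F
  rw [← lam_mul (val_pos _).ne' (val_pos _).ne']
  apply hc
  · exact Nat.mul_pos (val_pos _) (val_pos _)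
  · exact Nat.mul_le_mul (val_lt' _).le (val_lt' _).le
  · rw [← ZMod.natCast_eq_natCast_iff']
    rw [Nat.cast_mul, ZMod.natCast_zmod_val, ZMod.natCast_zmod_val, ← Units.val_mul,
      inv_mul_cancel_right, coe_U (by omega) hkn]

theorem ratio_mem {k k' : ℕ} {s s' : ℤ} (hk1 : 1 ≤ k) (hkn : k < n) (hc : Const n k s)
    (hk1' : 1 ≤ k') (hkn' : k' < n) (hc' : Const n k' s') : U n k' * (U n k)⁻¹ ∈ Q n := by
  have hs : s * s = 1 := by
    have h := col_rel hk1 hkn hc (1 : (ZMod n)ˣ)
    rw [← h, mul_mul_mul_comm, F_sq, F_sq, one_mul]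
  have hs' : s' * s' = 1 := by
    have h := col_rel hk1' hkn' hc' (1 : (ZMod n)ˣ)
    rw [← h, mul_mul_mul_comm, F_sq, F_sq, one_mul]
  refine ⟨s' * s, by rw [mul_mul_mul_comm, hs, hs', one_mul], fun u => ?_⟩
  -- v = k u⁻¹ : F(v) F(u) = s ; F(k' v⁻¹) F(v) = s'
  have h1 := col_rel hk1 hkn hc u
  have h2 := col_rel hk1' hkn' hc' (U n k * u⁻¹)
  have h3 : U n k' * (U n k * u⁻¹)⁻¹ = U n k' * (U n k)⁻¹ * u := by
    rw [mul_inv, inv_inv, ← mul_assoc]
  rw [h3] at h2
  have h4 := F_sq (U n k * u⁻¹)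
  have h5 := F_sq u
  calc F (U n k' * (U n k)⁻¹ * u)
      = F (U n k' * (U n k)⁻¹ * u) * (F (U n k * u⁻¹) * F (U n k * u⁻¹)) * (F u * F u) := by
        rw [h4, h5]; ring
    _ = (F (U n k' * (U n k)⁻¹ * u) * F (U n k * u⁻¹)) * (F (U n k * u⁻¹) * F u) * F u := by ring
    _ = s' * s * F u := by rw [h1, h2]

/-- the subgroup has odd order -/
theorem odd_Q (h7 : 7 ≤ n) : Odd (Nat.card (Q n)) := by
  classical
  have h1 := two_not_good (n := n) h7
  unfold Good at h1
  push Not at h1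
  obtain ⟨x, hx⟩ := h1
  have hupper : ∀ v : (ZMod n)ˣ, F (U n 2 * v) ≠ F (U n 2) * F v → n < 2 * (v : ZMod n).val := by
    intro v hv
    by_contra hle
    push Not at hle
    apply hv
    apply F_mul_small
    rw [val_U (by norm_num) (by omega)]
    rcases Nat.lt_or_ge (2 * (v : ZMod n).val) n with h | h
    · exact h
    · exfalso
      have h2 : 2 * (v : ZMod n).val = n := le_antisymm hle h
      have h3 : 2 ∣ n := ⟨_, h2.symm⟩
      rcases (Nat.dvd_prime hn.out).1 h3 with h4 | h4 <;> omega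
  by_contra hodd
  rw [Nat.not_odd_iff_even] at hodd
  have : Fact (Nat.Prime 2) := ⟨Nat.prime_two⟩
  obtain ⟨g, hg⟩ := exists_prime_orderOf_dvd_card' (G := Q n) 2 hodd.two_dvd
  have h2 : ((g : (ZMod n)ˣ) : ZMod n) * ((g : (ZMod n)ˣ) : ZMod n) = 1 := by
    have h3 : g ^ 2 = 1 := by rw [← hg]; exact pow_orderOf_eq_one g
    have h4 : ((g ^ 2 : Q n) : (ZMod n)ˣ) = 1 := by rw [h3]; rfl
    rw [Subgroup.coe_pow, pow_two] at h4
    rw [← Units.val_mul, h4, Units.val_one]
  have hg1 : g ≠ 1 := by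
    intro h
    rw [h, orderOf_one] at hg
    norm_num at hg
  have h5 : (g : (ZMod n)ˣ) = -1 := by
    rcases mul_self_eq_one_iff.1 h2 with h6 | h6
    · exfalso
      apply hg1
      apply Subtype.ext
      apply Units.ext
      rw [h6]
      rfl
    · apply Units.ext
      rw [h6, Units.val_neg, Units.val_one]
  obtain ⟨σ, hσ, hh⟩ := g.2
  rw [h5] at hh
  have a1 := hupper x hx
  have a2 := hupper (-x) (by
    intro he
    apply hx
    have e1 : U n 2 * (-x) = -1 * (U n 2 * x) := by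
      rw [mul_neg, neg_mul, one_mul]
    have e2 : (-x : (ZMod n)ˣ) = -1 * x := by rw [neg_mul, one_mul]
    rw [e1, hh, e2, hh, mul_left_comm] at he
    have hσ0 : σ ≠ 0 := by
      intro h0
      rw [h0] at hσ
      norm_num at hσ
    exact mul_left_cancel₀ hσ0 he)
  rw [val_neg] at a2
  have := val_lt' x
  omega

/-- at most `D` columns have constant sign, where `D` is an odd divisor of `n - 1` and
`D ≤ 3 sqrt n` -/
theorem bad_columns (h7 : 7 ≤ n) : ∃ D : ℕ, Odd D ∧ D ∣ n - 1 ∧ (D : ℝ) ≤ 3 * Real.sqrt n ∧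
    {k : ℕ | 1 ≤ k ∧ k < n ∧ ∃ s, Const n k s}.ncard ≤ D := by
  classical
  refine ⟨Nat.card (Q n), odd_Q h7, ?_, card_Q_le h7, ?_⟩
  · have h1 := Subgroup.card_subgroup_dvd_card (Q n)
    rwa [Nat.card_eq_fintype_card (α := (ZMod n)ˣ), ZMod.card_units] at h1
  · rcases Set.eq_empty_or_nonempty {k : ℕ | 1 ≤ k ∧ k < n ∧ ∃ s, Const n k s} with h0 | ⟨k0, hk0⟩
    · rw [h0, Set.ncard_empty]
      exact Nat.zero_le _
    · obtain ⟨hk1, hkn, s, hc⟩ := hk0
      have hQ : Nat.card (Q n) = ((Q n : Set (ZMod n)ˣ)).ncard := by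
        rw [← Nat.card_coe_set_eq]
        rfl
      rw [hQ]
      refine Set.ncard_le_ncard_of_injOn (fun k => U n k * (U n k0)⁻¹) ?_ ?_ (Set.toFinite _)
      · rintro k ⟨a1, a2, s', hc'⟩
        exact ratio_mem hk1 hkn hc a1 a2 hc'
      · rintro k ⟨a1, a2, _⟩ l ⟨b1, b2, _⟩ he
        have h1 : U n k = U n l := mul_right_cancel he
        have h2 := val_U (n := n) (by omega : 0 < k) a2
        rw [h1, val_U (n := n) (by omega : 0 < l) b2] at h2
        exact h2.symm

end Pool.Agent.Helper87.PA
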