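import Mathlib
import Pool.Agent.Helper87.PA.Comb
import Pool.Agent.Helper91.KC.DivBound

/-!
# Parity in the columns of the n-by-n array (MP_418075_nt): repulsion and counting
-/

set_option autoImplicit false

open Finset

namespace Pool.Agent.Helper87.PA

/-- `n` is prime and some column `k, n + k, ..., (n - 1) n + k` (`1 ≤ k < n`) misses one of the two parities
of `Omega` -/
def Exceptional (n : ℕ) : Prop :=
  n.Prime ∧ ∃ k, 1 ≤ k ∧ k < n ∧
    ¬ ((∃ j, j < n ∧ Even (ArithmeticFunction.cardFactors (j * n + k))) ∧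
       (∃ j, j < n ∧ Odd (ArithmeticFunction.cardFactors (j * n + k))))

theorem Exceptional.const {n : ℕ} (h : Exceptional n) :
    ∃ k s, 1 ≤ k ∧ k < n ∧ Const n k s := by
  obtain ⟨hn, k, hk1, hkn, hk⟩ := h
  have key : ∀ m, 1 ≤ m → m ≤ n * n → m % n = k % n → ∃ j, j < n ∧ m = j * n + k := by
    intro m hm1 hm2 hm3
    rw [Nat.mod_eq_of_lt hkn] at hm3
    have h1 := Nat.div_add_mod m n
    rw [hm3] at h1
    refine ⟨m / n, ?_, ?_⟩
    · by_contra h2
      push Not at h2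
      have h3 : n * n ≤ n * (m / n) := Nat.mul_le_mul_left _ h2
      omega
    · rw [mul_comm]
      exact h1.symm
  rw [not_and_or] at hk
  rcases hk with hk | hk
  · refine ⟨k, -1, hk1, hkn, ?_⟩
    intro m hm1 hm2 hm3
    obtain ⟨j, hj, rfl⟩ := key m hm1 hm2 hm3
    have h1 : ¬ Even (ArithmeticFunction.cardFactors (j * n + k)) := fun h => hk ⟨j, hj, h⟩
    rw [Nat.not_even_iff_odd] at h1
    exact h1.neg_one_pow
  · refine ⟨k, 1, hk1, hkn, ?_⟩
    intro m hm1 hm2 hm3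
    obtain ⟨j, hj, rfl⟩ := key m hm1 hm2 hm3
    have h1 : ¬ Odd (ArithmeticFunction.cardFactors (j * n + k)) := fun h => hk ⟨j, hj, h⟩
    rw [Nat.not_odd_iff_even] at h1
    exact h1.neg_one_pow

theorem exists_W {n h : ℕ} (hh : 1 ≤ h) : ∃ W : ℕ, 4 * h * W ^ 4 ≤ n ∧ n < 4 * h * (W + 1) ^ 4 := by
  obtain ⟨q, hq⟩ : ∃ q, q = n / (4 * h) := ⟨_, rfl⟩
  obtain ⟨r, hr⟩ : ∃ r, r = Nat.sqrt q := ⟨_, rfl⟩
  obtain ⟨W, hW⟩ : ∃ W, W = Nat.sqrt r := ⟨_, rfl⟩
  have h1 : r * r ≤ q := by rw [hr]; exact Nat.sqrt_le q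
  have h2 : q < (r + 1) * (r + 1) := by rw [hr]; exact Nat.lt_succ_sqrt q
  have h3 : W * W ≤ r := by rw [hW]; exact Nat.sqrt_le r
  have h4 : r < (W + 1) * (W + 1) := by rw [hW]; exact Nat.lt_succ_sqrt r
  have h5 : 4 * h * q ≤ n := by rw [hq]; exact Nat.mul_div_le n (4 * h)
  have h6 : n < 4 * h * (q + 1) := by rw [hq]; exact Nat.lt_mul_div_succ n (by omega)
  refine ⟨W, ?_, ?_⟩
  · have h7 : W ^ 4 ≤ q := by
      calc W ^ 4 = (W * W) * (W * W) := by ring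
        _ ≤ r * r := Nat.mul_le_mul h3 h3
        _ ≤ q := h1
    exact (Nat.mul_le_mul_left _ h7).trans h5
  · have h8 : q + 1 ≤ (W + 1) ^ 4 := by
      have h9 : r + 1 ≤ (W + 1) * (W + 1) := h4
      calc q + 1 ≤ (r + 1) * (r + 1) := h2
        _ ≤ ((W + 1) * (W + 1)) * ((W + 1) * (W + 1)) := Nat.mul_le_mul h9 h9
        _ = (W + 1) ^ 4 := by ring
    exact h6.trans_le (Nat.mul_le_mul_left _ h8)

/-- two exceptional primes are far apart -/
theorem repulsion (ε : ℝ) (hε : 0 < ε) : ∃ C : ℝ, 1 ≤ C ∧ ∀ n n' : ℕ, Exceptional n → Exceptional n' →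
    n < n' → (n' : ℝ) ^ (1 - ε) ≤ C * ((n' : ℝ) - n) := by
  obtain ⟨D, hD1, hD⟩ := Pool.Agent.Helper91.KC.card_divisors_bound (ε / 4) (by positivity)
  have hD4 : 1 ≤ D ^ 4 := one_le_pow₀ hD1
  refine ⟨2048 * D ^ 4, by linarith, ?_⟩
  intro n n' hn hn' hlt
  obtain ⟨h, rfl⟩ : ∃ h, n' = n + h := ⟨n' - n, by omega⟩
  have hh1 : 1 ≤ h := by omega
  obtain ⟨k, s, hk1, hkn, hc⟩ := hn.const
  obtain ⟨k', s', hk1', hkn', hc'⟩ := hn'.const
  have hnpos : 0 < n := hn.1.pos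
  have hp : (1 : ℝ) ≤ ((n + h : ℕ) : ℝ) := by exact_mod_cast (by omega : 1 ≤ n + h)
  have hp0 : (0 : ℝ) < ((n + h : ℕ) : ℝ) := by linarith
  obtain ⟨M, hM⟩ : ∃ M : ℝ, M = ((n + h : ℕ) : ℝ) ^ (ε / 4) := ⟨_, rfl⟩
  have hM1 : 1 ≤ M := by rw [hM]; exact Real.one_le_rpow hp (by positivity)
  have hM4 : M ^ 4 = ((n + h : ℕ) : ℝ) ^ ε := by
    rw [hM, ← Real.rpow_natCast, ← Real.rpow_mul hp0.le]
    congr 1
    push_cast
    ring
  have hsub : (((n + h : ℕ) : ℝ) - n) = h := by push_cast; ring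
  rw [hsub]
  have hpow : ((n + h : ℕ) : ℝ) ^ (1 - ε) * M ^ 4 = ((n + h : ℕ) : ℝ) := by
    rw [hM4, ← Real.rpow_add hp0]
    rw [show (1 - ε + ε) = 1 by ring, Real.rpow_one]
  have hM4' : 1 ≤ M ^ 4 := one_le_pow₀ hM1
  have hhR : (1 : ℝ) ≤ h := by exact_mod_cast hh1
  obtain ⟨W, hW1, hW2⟩ := exists_W (n := n) hh1
  have hWb : (W : ℝ) ≤ 2 * (D * M) + 1 := by
    rcases Nat.eq_zero_or_pos W with h0 | h0
    · rw [h0]
      have : 0 ≤ D * M := by positivity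
      push_cast
      linarith
    · obtain ⟨t, t', ht1, ht2, ht1', ht2', hcard⟩ :=
        pair_bound hn.1 hn'.1 hh1 hk1 hkn hc hk1' hkn' hc' h0 hW1
      have e1 : (t.divisors.card : ℝ) ≤ D * M := by
        refine (hD t ht1).trans (mul_le_mul_of_nonneg_left ?_ (by linarith))
        rw [hM]
        exact Real.rpow_le_rpow (Nat.cast_nonneg _) (by exact_mod_cast (by omega : t ≤ n + h)) (by positivity)
      have e2 : (t'.divisors.card : ℝ) ≤ D * M := by
        refine (hD t' ht1').trans (mul_le_mul_of_nonneg_left ?_ (by linarith))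
        rw [hM]
        exact Real.rpow_le_rpow (Nat.cast_nonneg _) (by exact_mod_cast (by omega : t' ≤ n + h)) (by positivity)
      have e3 : (W : ℝ) ≤ t.divisors.card + t'.divisors.card + 1 := by exact_mod_cast hcard
      linarith
  have hDM : 1 ≤ D * M := by nlinarith
  have hW4 : ((W : ℝ) + 1) ^ 4 ≤ (4 * (D * M)) ^ 4 :=
    pow_le_pow_left₀ (by positivity) (by linarith) 4
  have hn2 : (n : ℝ) < 4 * h * ((W : ℝ) + 1) ^ 4 := by exact_mod_cast hW2
  have hn3 : (n : ℝ) ≤ 1024 * D ^ 4 * h * M ^ 4 := by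
    have : 4 * (h : ℝ) * ((W : ℝ) + 1) ^ 4 ≤ 4 * h * (4 * (D * M)) ^ 4 :=
      mul_le_mul_of_nonneg_left hW4 (by positivity)
    have e : 4 * (h : ℝ) * (4 * (D * M)) ^ 4 = 1024 * D ^ 4 * h * M ^ 4 := by ring
    linarith
  have hn4 : ((n + h : ℕ) : ℝ) ≤ 2048 * D ^ 4 * h * M ^ 4 := by
    have e1 : (h : ℝ) ≤ D ^ 4 * h * M ^ 4 := by
      have e2 : (1 : ℝ) ≤ D ^ 4 * M ^ 4 := by nlinarith
      have e3 : D ^ 4 * h * M ^ 4 = h * (D ^ 4 * M ^ 4) := by ring
      rw [e3]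
      nlinarith
    have e4 : 2048 * D ^ 4 * h * M ^ 4 = 1024 * D ^ 4 * h * M ^ 4 + 1024 * (D ^ 4 * h * M ^ 4) := by ring
    push_cast
    have e5 : 0 ≤ D ^ 4 * h * M ^ 4 := by positivity
    linarith
  rw [← hpow] at hn4
  exact le_of_mul_le_mul_right hn4 (by linarith)

/-- counting -/
theorem counting (ε : ℝ) (hε : 0 < ε) : ∃ C : ℝ, 1 ≤ C ∧ ∀ N : ℕ,
    (({n : ℕ | n ≤ N ∧ Exceptional n}.ncard : ℕ) : ℝ) ≤ C * (N : ℝ) ^ ε := by
  classical
  have hfin : ∀ N : ℕ, {n : ℕ | n ≤ N ∧ Exceptional n} =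
      (((Icc 1 N).filter Exceptional : Finset ℕ) : Set ℕ) := by
    intro N
    ext n
    simp only [Set.mem_ofPred_eq, coe_filter, mem_Icc]
    constructor
    · rintro ⟨h1, h2⟩
      exact ⟨⟨h2.1.pos, h1⟩, h2⟩
    · rintro ⟨⟨_, h1⟩, h2⟩
      exact ⟨h1, h2⟩
  rcases le_or_gt 1 ε with h1 | h1
  · refine ⟨1, le_rfl, ?_⟩
    intro N
    rw [hfin, Set.ncard_coe_finset, one_mul]
    have h2 : ((Icc 1 N).filter Exceptional).card ≤ N := by
      refine (card_filter_le _ _).trans ?_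
      rw [Nat.card_Icc]
      omega
    rcases Nat.eq_zero_or_pos N with h3 | h3
    · subst h3
      simp
      positivity
    · have h4 : (1 : ℝ) ≤ N := by exact_mod_cast h3
      calc ((((Icc 1 N).filter Exceptional).card : ℕ) : ℝ) ≤ (N : ℝ) := by exact_mod_cast h2
        _ = (N : ℝ) ^ (1 : ℝ) := (Real.rpow_one _).symm
        _ ≤ (N : ℝ) ^ ε := Real.rpow_le_rpow_of_exponent_le h4 h1
  · obtain ⟨C, hC1, hC⟩ := repulsion ε hε
    obtain ⟨κ, hκ⟩ : ∃ κ : ℝ, κ = C / ε := ⟨_, rfl⟩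
    have hκ0 : 0 < κ := by rw [hκ]; positivity
    refine ⟨κ + 1, by linarith, ?_⟩
    intro N
    rw [hfin, Set.ncard_coe_finset]
    -- separation
    have sep : ∀ n n' : ℕ, Exceptional n → Exceptional n' → n < n' →
        κ * (n : ℝ) ^ ε + 1 ≤ κ * (n' : ℝ) ^ ε := by
      intro n n' hn hn' hlt
      have hp0 : (0 : ℝ) < n' := by exact_mod_cast hn'.1.pos
      have h2 := hC n n' hn hn' hlt
      have h3 : (n : ℝ) = n' * (1 + (-(((n' : ℝ) - n) / n'))) := by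
        field_simp
        ring
      have h4 : (1 + (-(((n' : ℝ) - n) / n'))) ^ ε ≤ 1 + ε * (-(((n' : ℝ) - n) / n')) := by
        apply rpow_one_add_le_one_add_mul_self _ hε.le h1.le
        have : ((n' : ℝ) - n) / n' ≤ 1 := by
          rw [div_le_one hp0]
          have : (0 : ℝ) ≤ n := Nat.cast_nonneg _
          linarith
        linarith
      have h5 : (n : ℝ) ^ ε = (n' : ℝ) ^ ε * (1 + (-(((n' : ℝ) - n) / n'))) ^ ε := by
        conv_lhs => rw [h3]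
        rw [Real.mul_rpow hp0.le]
        have : 1 + (-(((n' : ℝ) - n) / n')) = n / n' := by field_simp; ring
        rw [this]
        positivity
      have h6 : (n' : ℝ) ^ ε * (n' : ℝ) ^ (1 - ε) = n' := by
        rw [← Real.rpow_add hp0, show ε + (1 - ε) = 1 by ring, Real.rpow_one]
      have h7 : (n : ℝ) ^ ε ≤ (n' : ℝ) ^ ε * (1 + ε * (-(((n' : ℝ) - n) / n'))) := by
        rw [h5]
        exact mul_le_mul_of_nonneg_left h4 (by positivity)
      have h8 : (n' : ℝ) ≤ (n' : ℝ) ^ ε * (C * ((n' : ℝ) - n)) := by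
        calc (n' : ℝ) = (n' : ℝ) ^ ε * (n' : ℝ) ^ (1 - ε) := h6.symm
          _ ≤ _ := mul_le_mul_of_nonneg_left h2 (by positivity)
      have h9 : 1 ≤ (n' : ℝ) ^ ε * (C * (((n' : ℝ) - n) / n')) := by
        have : (n' : ℝ) ^ ε * (C * (((n' : ℝ) - n) / n')) = ((n' : ℝ) ^ ε * (C * ((n' : ℝ) - n))) / n' := by
          ring
        rw [this, le_div_iff₀ hp0, one_mul]
        exact h8
      have h10 : κ * (n : ℝ) ^ ε ≤ κ * ((n' : ℝ) ^ ε * (1 + ε * (-(((n' : ℝ) - n) / n')))) :=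
        mul_le_mul_of_nonneg_left h7 hκ0.le
      have h11 : κ * ((n' : ℝ) ^ ε * (1 + ε * (-(((n' : ℝ) - n) / n')))) =
          κ * (n' : ℝ) ^ ε - (n' : ℝ) ^ ε * (C * (((n' : ℝ) - n) / n')) := by
        rw [hκ]
        field_simp
        ring
      linarith
    rcases Nat.eq_zero_or_pos N with h3 | h3
    · subst h3
      simp
      positivity
    · have hinj : Set.InjOn (fun n : ℕ => ⌊κ * (n : ℝ) ^ ε⌋₊)
          ((Icc 1 N).filter Exceptional : Finset ℕ) := by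
        have key : ∀ n n' : ℕ, Exceptional n → Exceptional n' → n < n' →
            ⌊κ * (n : ℝ) ^ ε⌋₊ ≠ ⌊κ * (n' : ℝ) ^ ε⌋₊ := by
          intro n n' hn hn' hlt he
          have h4 := sep n n' hn hn' hlt
          have h5 : ⌊κ * (n : ℝ) ^ ε⌋₊ + 1 ≤ ⌊κ * (n' : ℝ) ^ ε⌋₊ := by
            rw [← Nat.floor_add_one (by positivity)]
            exact Nat.floor_le_floor h4
          omega
        intro u hu v hv he
        rw [coe_filter] at hu hv
        rcases lt_trichotomy u v with h | h | h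
        · exact absurd he (key u v hu.2 hv.2 h)
        · exact h
        · exact absurd he.symm (key v u hv.2 hu.2 h)
      have hmaps : ((Icc 1 N).filter Exceptional).image (fun n : ℕ => ⌊κ * (n : ℝ) ^ ε⌋₊) ⊆
          range (⌊κ * (N : ℝ) ^ ε⌋₊ + 1) := by
        intro y hy
        rw [mem_image] at hy
        obtain ⟨n, hn, rfl⟩ := hy
        rw [mem_filter, mem_Icc] at hn
        rw [mem_range]
        have : ⌊κ * (n : ℝ) ^ ε⌋₊ ≤ ⌊κ * (N : ℝ) ^ ε⌋₊ := by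
          apply Nat.floor_le_floor
          exact mul_le_mul_of_nonneg_left (Real.rpow_le_rpow (Nat.cast_nonneg _)
            (by exact_mod_cast hn.1.2) hε.le) hκ0.le
        omega
      have h4 := card_le_card hmaps
      rw [card_image_of_injOn hinj, card_range] at h4
      have h5 : (1 : ℝ) ≤ (N : ℝ) ^ ε := Real.one_le_rpow (by exact_mod_cast h3) hε.le
      calc ((((Icc 1 N).filter Exceptional).card : ℕ) : ℝ) ≤ ((⌊κ * (N : ℝ) ^ ε⌋₊ + 1 : ℕ) : ℝ) := by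
            exact_mod_cast h4
        _ = (⌊κ * (N : ℝ) ^ ε⌋₊ : ℝ) + 1 := by push_cast; ring
        _ ≤ κ * (N : ℝ) ^ ε + 1 := by
            have := Nat.floor_le (show 0 ≤ κ * (N : ℝ) ^ ε by positivity)
            linarith
        _ ≤ (κ + 1) * (N : ℝ) ^ ε := by linarith

end Pool.Agent.Helper87.PA
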